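import Pool.Agent.UH2.CollC

/-!
# The three local cases for a rational parameter
-/

set_option autoImplicit false

open NumberField IsDedekindDomain
open scoped WithZero

namespace Pool.Agent.UH2

open Pool.Agent.UH

/-- the orbit of zero as polynomials in `c` -/
noncomputable def crit : ℕ → Polynomial ℤ
  | 0 => Polynomial.X
  | n + 1 => crit n ^ 2 + Polynomial.X

theorem crit_spec (n : ℕ) : (crit n).Monic ∧ 1 ≤ (crit n).natDegree := by
  induction n with
  | zero => exact ⟨Polynomial.monic_X, by simp [crit]⟩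
  | succ n ih =>
    obtain ⟨h1, h2⟩ := ih
    have h3 : (crit n ^ 2).natDegree = 2 * (crit n).natDegree := h1.natDegree_pow 2
    have h4 : (Polynomial.X : Polynomial ℤ).degree < (crit n ^ 2).degree := by
      rw [Polynomial.degree_eq_natDegree (h1.pow 2).ne_zero, h3, Polynomial.degree_X]
      have : 1 < 2 * (crit n).natDegree := by omega
      exact_mod_cast this
    refine ⟨(h1.pow 2).add_of_left h4, ?_⟩
    have h5 : (crit (n + 1)).natDegree = (crit n ^ 2).natDegree :=
      Polynomial.natDegree_add_eq_left_of_degree_lt h4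
    rw [h5, h3]; omega

theorem crit_eval {A : Type*} [CommRing A] (c : A) (n : ℕ) :
    Polynomial.aeval c (crit n) = (fc 2 c)^[n + 1] 0 := by
  induction n with
  | zero => simp [crit, fc]
  | succ n ih =>
    rw [Function.iterate_succ_apply', ← ih]
    simp [crit, fc]

theorem int_orbit (n : ℤ) (h0 : n ≠ 0) (h1 : n ≠ -1) (m : ℕ) : (fc 2 n)^[m + 1] 0 ≠ 0 := by
  have key : ∀ m : ℕ, ∃ k : ℤ, 0 ≤ k ∧ (fc 2 n)^[m + 1] 0 = n * (1 + n * k) := by
    intro m
    induction m with
    | zero => exact ⟨0, le_rfl, by simp [fc]⟩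
    | succ m ih =>
      obtain ⟨k, hk, e⟩ := ih
      refine ⟨(1 + n * k) ^ 2, sq_nonneg _, ?_⟩
      rw [Function.iterate_succ_apply', e]
      unfold fc; ring
  obtain ⟨k, hk, e⟩ := key m
  rw [e]
  intro h
  rcases mul_eq_zero.mp h with h2 | h2
  · exact h0 h2
  · have h3 : n ∣ 1 := ⟨-k, by linear_combination h2⟩
    rcases Int.isUnit_iff.mp (isUnit_of_dvd_one h3) with h4 | h4
    · rw [h4] at h2; omega
    · exact h1 h4

theorem rat_orbit (c : ℚ) (h0 : c ≠ 0) (h1 : c ≠ -1) (m : ℕ) (hm : 0 < m) :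
    (fc 2 c)^[m] 0 ≠ 0 := by
  obtain ⟨n, rfl⟩ : ∃ n, m = n + 1 := ⟨m - 1, by omega⟩
  intro h
  have h2 : IsIntegral ℤ c := ⟨crit n, (crit_spec n).1, by
    rw [← Polynomial.aeval_def, crit_eval, h]⟩
  obtain ⟨z, hz⟩ := IsIntegrallyClosed.isIntegral_iff.mp h2
  have hz' : (z : ℚ) = c := hz
  rw [← hz'] at h h0 h1
  have h3 := map_iter_fc (Int.castRingHom ℚ) 2 z 0 (n + 1)
  have h4 : ((((fc 2 z)^[n + 1] 0 : ℤ)) : ℚ) = 0 := by
    rw [← h]
    simpa using h3
  exact int_orbit z (by rintro rfl; exact h0 (by simp)) (by rintro rfl; exact h1 (by simp)) n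
    (by exact_mod_cast h4)

section
variable (K : Type*) [Field K] [NumberField K]

theorem exists_place {l : ℕ} (hl : l.Prime) :
    ∃ v : HeightOneSpectrum (𝓞 K), v.valuation K (l : K) < 1 := by
  have hunit : ¬ IsUnit (l : 𝓞 K) := by
    intro h
    have h2 := h.map (Algebra.norm ℤ)
    have h4 : Algebra.norm ℤ (l : 𝓞 K) = (l : ℤ) ^ Module.finrank ℚ K := by
      have h5 := Algebra.norm_algebraMap (R := ℤ) (S := 𝓞 K) (l : ℤ)
      rw [RingOfIntegers.rank] at h5
      simpa using h5
    rw [h4] at h2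
    have h5 : IsUnit (l : ℤ) := (isUnit_pow_iff (Module.finrank_pos (R := ℚ) (M := K)).ne').mp h2
    rw [Int.ofNat_isUnit, Nat.isUnit_iff] at h5
    exact hl.one_lt.ne' h5
  obtain ⟨P, hP, hle⟩ := Ideal.exists_le_maximal (Ideal.span {(l : 𝓞 K)}) (by
    rw [Ne, Ideal.span_singleton_eq_top]; exact hunit)
  have hmem : (l : 𝓞 K) ∈ P := hle (Ideal.mem_span_singleton_self _)
  have hl0 : (l : 𝓞 K) ≠ 0 := by exact_mod_cast hl.ne_zero
  have hP0 : P ≠ ⊥ := by
    rintro rfl
    exact hl0 (by simpa using hmem)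
  let v : HeightOneSpectrum (𝓞 K) := ⟨P, hP.isPrime, hP0⟩
  refine ⟨v, ?_⟩
  have h1 : (l : 𝓞 K) ∈ v.asIdeal := hmem
  rw [← v.valuation_lt_one_iff_mem (K := K)] at h1
  change v.valuation K (algebraMap (𝓞 K) K (l : 𝓞 K)) < 1 at h1
  rwa [map_natCast] at h1

variable {K}

theorem val_int_le (v : HeightOneSpectrum (𝓞 K)) (n : ℤ) : v.valuation K (n : K) ≤ 1 := by
  have := v.valuation_le_one (K := K) (n : 𝓞 K)
  change v.valuation K (algebraMap (𝓞 K) K (n : 𝓞 K)) ≤ 1 at this
  rwa [map_intCast] at this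

theorem val_coprime (v : HeightOneSpectrum (𝓞 K)) {a b : ℤ} (h : IsCoprime a b)
    (ha : v.valuation K (a : K) < 1) : v.valuation K (b : K) = 1 := by
  refine le_antisymm (val_int_le v b) ?_
  by_contra hcon
  push Not at hcon
  obtain ⟨x, y, hxy⟩ := h
  have h1 : (x : K) * (a : K) + (y : K) * (b : K) = 1 := by exact_mod_cast congrArg (Int.cast : ℤ → K) hxy
  have h2 : v.valuation K ((x : K) * (a : K) + (y : K) * (b : K)) < 1 := by
    refine Valuation.map_add_lt _ ?_ ?_
    · rw [map_mul]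
      calc v.valuation K (x : K) * v.valuation K (a : K) ≤ 1 * v.valuation K (a : K) := by
            gcongr; exact val_int_le v x
        _ < 1 := by rw [one_mul]; exact ha
    · rw [map_mul]
      calc v.valuation K (y : K) * v.valuation K (b : K) ≤ 1 * v.valuation K (b : K) := by
            gcongr; exact val_int_le v y
        _ < 1 := by rw [one_mul]; exact hcon
  rw [h1, map_one] at h2
  exact lt_irrefl _ h2

theorem val_dvd (v : HeightOneSpectrum (𝓞 K)) {l : ℕ} (hl : v.valuation K (l : K) < 1) {n : ℤ}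
    (h : (l : ℤ) ∣ n) : v.valuation K (n : K) < 1 := by
  obtain ⟨k, rfl⟩ := h
  push_cast
  rw [map_mul]
  calc v.valuation K (l : K) * v.valuation K (k : K) ≤ v.valuation K (l : K) * 1 := by
        gcongr; exact val_int_le v k
    _ < 1 := by rw [mul_one]; exact hl

/-- an integer with odd absolute value at least three has an odd prime factor -/
theorem exists_odd_prime {n : ℤ} (h1 : ¬ (2:ℤ) ∣ n) (h2 : n.natAbs ≠ 1) :
    ∃ l : ℕ, l.Prime ∧ l ≠ 2 ∧ (l : ℤ) ∣ n := by
  obtain ⟨l, hl, hd⟩ := Nat.exists_prime_and_dvd h2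
  have hd' : (l : ℤ) ∣ n := Int.natCast_dvd.mpr hd
  refine ⟨l, hl, ?_, hd'⟩
  rintro rfl
  exact h1 (by exact_mod_cast hd')

/-- **The local cases for a rational parameter.** -/
theorem rat_two (K : Type*) [Field K] [NumberField K] (c : ℚ) (h0 : c ≠ 0) (h1 : c ≠ -1) :
    ∃ v : HeightOneSpectrum (𝓞 K),
      (v.valuation K 2 < 1 ∧ v.valuation K (c : K) ≤ 1 ∧
        ∀ m : ℕ, 0 < m → (fc 2 (c : K))^[m] 0 ≠ 0) ∨
      (v.valuation K 2 = 1 ∧ v.valuation K (c : K) < 1) ∨
      (v.valuation K 2 = 1 ∧ v.valuation K ((c : K) + 2) < 1) := by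
  have hden : ((c.den : ℤ) : K) ≠ 0 := by exact_mod_cast c.den_ne_zero
  have hc : (c : K) = ((c.num : ℤ) : K) / ((c.den : ℤ) : K) := by
    have h := congrArg (Rat.cast : ℚ → K) (Rat.num_div_den c).symm
    push_cast at h ⊢
    exact h
  have hcop : IsCoprime (c.num) (c.den : ℤ) := by
    rw [Int.isCoprime_iff_gcd_eq_one]
    have := c.reduced
    simpa [Int.gcd, Nat.Coprime] using this
  have h2K : ∀ v : HeightOneSpectrum (𝓞 K), v.valuation K (((2:ℤ)) : K) = v.valuation K 2 := by
    intro v; norm_num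
  by_cases hodd : (2:ℤ) ∣ (c.den : ℤ)
  · -- the denominator is even
    have hnum : ¬ (2:ℤ) ∣ c.num := by
      intro h
      have := hcop.isUnit_of_dvd' h hodd
      exact absurd (Int.isUnit_iff.mp this) (by norm_num)
    by_cases hn1 : c.num.natAbs = 1
    · -- then `c + 2` has an odd prime factor in the numerator
      set N : ℤ := c.num + 2 * (c.den : ℤ) with hN
      have hN2 : ¬ (2:ℤ) ∣ N := by
        intro h
        exact hnum ((Int.dvd_add_left (Dvd.intro _ rfl)).mp h)
      have hdpos : (2:ℤ) ≤ (c.den : ℤ) := by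
        have h3 : (0:ℤ) < (c.den : ℤ) := by exact_mod_cast c.den_pos
        obtain ⟨k, hk⟩ := hodd
        omega
      have hNa : N.natAbs ≠ 1 := by omega
      obtain ⟨l, hl, hl2, hlN⟩ := exists_odd_prime hN2 hNa
      obtain ⟨v, hv⟩ := exists_place K hl
      have hlden : IsCoprime (l : ℤ) (c.den : ℤ) := by
        rw [Int.isCoprime_iff_gcd_eq_one]
        have hcN : IsCoprime N (c.den : ℤ) := by
          rw [hN]; exact hcop.add_mul_right_left 2
        have := hcN.of_isCoprime_of_dvd_left hlN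
        rwa [Int.isCoprime_iff_gcd_eq_one] at this
      refine ⟨v, Or.inr (Or.inr ⟨?_, ?_⟩)⟩
      · rw [← h2K]
        refine val_coprime v (a := (l : ℤ)) ?_ (by exact_mod_cast hv)
        exact_mod_cast Nat.isCoprime_iff_coprime.mpr
          ((Nat.coprime_primes hl Nat.prime_two).mpr hl2)
      · have e : (c : K) + 2 = ((N : ℤ) : K) / ((c.den : ℤ) : K) := by
          rw [hc, hN]
          push_cast
          have h3 : ((c.den : ℕ) : K) ≠ 0 := by exact_mod_cast c.den_ne_zero
          field_simp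
        rw [e, map_div₀, val_coprime v hlden (by exact_mod_cast hv), div_one]
        exact val_dvd v hv hlN
    · obtain ⟨l, hl, hl2, hlN⟩ := exists_odd_prime hnum hn1
      obtain ⟨v, hv⟩ := exists_place K hl
      refine ⟨v, Or.inr (Or.inl ⟨?_, ?_⟩)⟩
      · rw [← h2K]
        refine val_coprime v (a := (l : ℤ)) ?_ (by exact_mod_cast hv)
        exact_mod_cast Nat.isCoprime_iff_coprime.mpr
          ((Nat.coprime_primes hl Nat.prime_two).mpr hl2)
      · have hlden : IsCoprime (l : ℤ) (c.den : ℤ) := hcop.of_isCoprime_of_dvd_left hlN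
        rw [hc, map_div₀, val_coprime v hlden (by exact_mod_cast hv), div_one]
        exact val_dvd v hv hlN
  · -- the denominator is odd
    obtain ⟨v, hv⟩ := exists_place K Nat.prime_two
    refine ⟨v, Or.inl ⟨by exact_mod_cast hv, ?_, ?_⟩⟩
    · have hcop2 : IsCoprime ((2 : ℕ) : ℤ) (c.den : ℤ) := by
        rw [Nat.isCoprime_iff_coprime, Nat.coprime_comm]
        refine ((Nat.Prime.coprime_iff_not_dvd Nat.prime_two).mpr ?_).symm
        intro h
        exact hodd (by exact_mod_cast h)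
      rw [hc, map_div₀, val_coprime v hcop2 (by exact_mod_cast hv), div_one]
      exact val_int_le v _
    · intro m hm h
      have h3 := map_iter_fc (algebraMap ℚ K) 2 c 0 m
      rw [map_zero] at h3
      have h4 : algebraMap ℚ K c = (c : K) := rfl
      rw [h4, h] at h3
      exact rat_orbit c h0 h1 m hm ((map_eq_zero (algebraMap ℚ K)).mp h3)

end

end Pool.Agent.UH2
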