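import Pool.Agent.UH2.GenLoc

/-!
# Collisions for polynomials of prime power degree with Chebyshev (Dickson) reduction, tame case
-/

set_option autoImplicit false

open Polynomial NumberField IsDedekindDomain
open scoped WithZero

namespace Pool.Agent.UH2

theorem TT_coeff (R : Type*) [CommRing R] (n : ℕ) :
    (∀ i, n < i → (TT R n).coeff i = 0) ∧ (1 ≤ n → (TT R n).coeff n = 1) := by
  induction n using Nat.twoStepInduction with
  | zero =>
    rw [TT_zero]
    refine ⟨fun i hi => ?_, fun h => absurd h (by norm_num)⟩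
    have e : (2 : R[X]) = C (2 : R) := by rw [map_ofNat C 2]
    rw [e, coeff_C, if_neg (by omega)]
  | one =>
    rw [TT_one]
    refine ⟨fun i hi => ?_, fun _ => coeff_X_one⟩
    rw [coeff_X, if_neg (by omega)]
  | more n ih1 ih2 =>
    rw [TT_add_two]
    refine ⟨fun i hi => ?_, fun _ => ?_⟩
    · obtain ⟨j, rfl⟩ : ∃ j, i = j + 1 := ⟨i - 1, by omega⟩
      rw [coeff_sub, coeff_X_mul, ih2.1 j (by omega), ih1.1 (j + 1) (by omega), sub_zero]
    · rw [coeff_sub, show n + 2 = (n + 1) + 1 from rfl, coeff_X_mul, ih2.2 (by omega),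
        ih1.1 _ (by omega), sub_zero]

theorem TT_int {F : Type*} [Field F] (u : Valuation F ℤᵐ⁰) (n : ℕ) : IntP u (TT F n) := by
  intro i
  rw [← map_TT (Int.castRingHom F) n, coeff_map, eq_intCast]
  exact intCast_le _

section
variable {K : Type*} [Field K] [NumberField K]

theorem not_dvd_card {p : ℕ} (hp : p.Prime) (v : HeightOneSpectrum (𝓞 K))
    (hv : v.valuation K (p : K) = 1) : ¬ p ∣ Nat.card (𝓞 K ⧸ v.asIdeal) := by
  have hvmax : v.asIdeal.IsMaximal := v.isMaximal
  let _ : Field (𝓞 K ⧸ v.asIdeal) := Ideal.Quotient.field v.asIdeal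
  have hfin : Finite (𝓞 K ⧸ v.asIdeal) := Ideal.finiteQuotientOfFreeOfNeBot _ v.ne_bot
  intro h
  have hmem : (p : 𝓞 K) ∈ v.asIdeal := by
    have hft : Fintype (𝓞 K ⧸ v.asIdeal) := Fintype.ofFinite _
    obtain ⟨ℓ, hℓ⟩ := CharP.exists (𝓞 K ⧸ v.asIdeal)
    obtain ⟨n, hℓp, hn⟩ := FiniteField.card (𝓞 K ⧸ v.asIdeal) ℓ
    rw [Nat.card_eq_fintype_card, hn] at h
    have h6 : p = ℓ := (Nat.prime_dvd_prime_iff_eq hp hℓp).mp (hp.dvd_of_dvd_pow h)
    have h7 : ((ℓ : ℕ) : 𝓞 K ⧸ v.asIdeal) = 0 := CharP.cast_eq_zero _ ℓ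
    rw [← h6] at h7
    rw [← Ideal.Quotient.eq_zero_iff_mem]
    simpa using h7
  have h8 := (v.valuation_lt_one_iff_mem (K := K) (p : 𝓞 K)).mpr hmem
  have h9 : algebraMap (𝓞 K) K (p : 𝓞 K) = (p : K) := map_natCast _ p
  have h10 : v.valuation K (p : K) < 1 := by rw [← h9]; exact h8
  rw [hv] at h10
  exact lt_irrefl _ h10

theorem two_le_card (v : HeightOneSpectrum (𝓞 K)) : 2 ≤ Nat.card (𝓞 K ⧸ v.asIdeal) := by
  have hvmax : v.asIdeal.IsMaximal := v.isMaximal
  let _ : Field (𝓞 K ⧸ v.asIdeal) := Ideal.Quotient.field v.asIdeal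
  have hfin : Finite (𝓞 K ⧸ v.asIdeal) := Ideal.finiteQuotientOfFreeOfNeBot _ v.ne_bot
  exact Finite.one_lt_card

end

section residue
variable {E : Type*} [Field E] [NumberField E] (w : HeightOneSpectrum (𝓞 E))

theorem coe_eval (P : (𝓞 E)[X]) (t : 𝓞 E) :
    ((P.eval t : 𝓞 E) : E) = (P.map (algebraMap (𝓞 E) E)).eval (t : E) := by
  rw [eval_map]
  exact (eval₂_at_apply (p := P) (algebraMap (𝓞 E) E) t).symm

theorem approx_iter {q : ℕ} {P : E[X]} (hP : SmallP (w.valuation E) (P - TT E q)) {x : E}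
    (hx : w.valuation E x ≤ 1) (a : 𝓞 E) (ha : w.valuation E ((a : E) - x) < 1) (n : ℕ) :
    w.valuation E (((((fun t : 𝓞 E => (TT (𝓞 E) q).eval t)^[n] a : 𝓞 E)) : E) -
      (fun z => P.eval z)^[n] x) < 1 := by
  have hPi : IntP (w.valuation E) P := by
    intro i
    have e : P.coeff i = (P - TT E q).coeff i + (TT E q).coeff i := by rw [coeff_sub]; ring
    rw [e]
    exact Valuation.map_add_le _ (hP i).le (TT_int _ q i)
  induction n with
  | zero => exact ha
  | succ n ih =>
    rw [Function.iterate_succ_apply', Function.iterate_succ_apply']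
    set t := (fun t : 𝓞 E => (TT (𝓞 E) q).eval t)^[n] a with ht
    set X' := (fun z => P.eval z)^[n] x with hX
    have hX1 : w.valuation E X' ≤ 1 := iter_le hPi hx n
    have ht1 : w.valuation E (t : E) ≤ 1 := w.valuation_le_one t
    have e1 : ((((fun t : 𝓞 E => (TT (𝓞 E) q).eval t) t : 𝓞 E)) : E) =
        (TT E q).eval (t : E) := by
      change (((TT (𝓞 E) q).eval t : 𝓞 E) : E) = _
      rw [coe_eval, map_TT]
    rw [e1]
    have e2 : (TT E q).eval (t : E) - P.eval X' =
        ((TT E q).eval (t : E) - (TT E q).eval X') - (P - TT E q).eval X' := by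
      rw [eval_sub]; ring
    change w.valuation E ((TT E q).eval (t : E) - P.eval X') < 1
    rw [e2]
    exact Valuation.map_sub_lt _ ((eval_sub_le (TT_int _ q) ht1 hX1).trans_lt ih)
      (eval_lt hP hX1)

theorem dick_res {p s : ℕ} (hp : p.Prime) (hpw : w.valuation E (p : E) = 1) {P : E[X]}
    (hP : SmallP (w.valuation E) (P - TT E (p ^ s))) {x y : E} (hx : w.valuation E x ≤ 1)
    (hy : w.valuation E y ≤ 1) {N : ℕ}
    (h1 : (fun z => P.eval z)^[N + 1] x = (fun z => P.eval z)^[N + 1] y)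
    (h2 : (fun z => P.eval z)^[N] x ≠ (fun z => P.eval z)^[N] y) :
    p ^ (s * N + 1) ∣ Nat.card (𝓞 E ⧸ w.asIdeal) ^ 2 - 1 := by
  classical
  have hfin : Finite (𝓞 E ⧸ w.asIdeal) := Ideal.finiteQuotientOfFreeOfNeBot _ w.ne_bot
  have hmax : w.asIdeal.IsMaximal := w.isMaximal
  let _ : Field (𝓞 E ⧸ w.asIdeal) := Ideal.Quotient.field _
  let _ : Fintype (𝓞 E ⧸ w.asIdeal) := Fintype.ofFinite _
  have hPi : IntP (w.valuation E) P := by
    intro i
    have e : P.coeff i = (P - TT E (p ^ s)).coeff i + (TT E (p ^ s)).coeff i := by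
      rw [coeff_sub]; ring
    rw [e]
    exact Valuation.map_add_le _ (hP i).le (TT_int _ _ i)
  obtain ⟨a, ha⟩ := exists_approx w hx
  obtain ⟨b, hb⟩ := exists_approx w hy
  have hkx := approx_iter w hP hx a ha
  have hky := approx_iter w hP hy b hb
  have hpk : ((p : ℕ) : 𝓞 E ⧸ w.asIdeal) ≠ 0 := by
    intro h
    have h3 : ((p : ℕ) : 𝓞 E) ∈ w.asIdeal := by
      rw [← Ideal.Quotient.eq_zero_iff_mem, map_natCast]; exact h
    rw [← w.valuation_lt_one_iff_mem (K := E)] at h3
    change w.valuation E (algebraMap (𝓞 E) E (p : 𝓞 E)) < 1 at h3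
    rw [map_natCast, hpw] at h3
    exact lt_irrefl _ h3
  have hmk : ∀ (a : 𝓞 E) (n : ℕ), Ideal.Quotient.mk w.asIdeal
      ((fun t : 𝓞 E => (TT (𝓞 E) (p ^ s)).eval t)^[n] a) =
        (fun t : 𝓞 E ⧸ w.asIdeal => (TT (𝓞 E ⧸ w.asIdeal) (p ^ s)).eval t)^[n]
          (Ideal.Quotient.mk w.asIdeal a) := by
    intro a n
    rw [iter_map, map_TT]
  have hmem : ∀ t : 𝓞 E, Ideal.Quotient.mk w.asIdeal t = 0 ↔ w.valuation E (t : E) < 1 := by
    intro t
    rw [Ideal.Quotient.eq_zero_iff_mem]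
    exact (w.valuation_lt_one_iff_mem (K := E) t).symm
  rw [Nat.card_eq_fintype_card]
  set A := (fun t : 𝓞 E => (TT (𝓞 E) (p ^ s)).eval t)^[N] a with hA
  set B := (fun t : 𝓞 E => (TT (𝓞 E) (p ^ s)).eval t)^[N] b with hB
  set X' := (fun z => P.eval z)^[N] x with hX
  set Y' := (fun z => P.eval z)^[N] y with hY
  have hX1 : w.valuation E X' ≤ 1 := iter_le hPi hx N
  have hY1 : w.valuation E Y' ≤ 1 := iter_le hPi hy N
  have hB1 : w.valuation E (B : E) ≤ 1 := w.valuation_le_one B
  have hkxN : w.valuation E ((A : E) - X') < 1 := hkx N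
  have hkyN : w.valuation E ((B : E) - Y') < 1 := hky N
  have hcol : P.eval X' = P.eval Y' := by
    rw [Function.iterate_succ_apply', Function.iterate_succ_apply'] at h1
    exact h1
  by_cases hAB : Ideal.Quotient.mk w.asIdeal A = Ideal.Quotient.mk w.asIdeal B
  · -- a critical point modulo `w`
    apply TT_finite hp hpk (Ideal.Quotient.mk w.asIdeal b) (Ideal.Quotient.mk w.asIdeal b) N
    right
    rw [← hmk b N, ← hB]
    have h3 : w.valuation E ((A : E) - (B : E)) < 1 := by
      have h4 : Ideal.Quotient.mk w.asIdeal (A - B) = 0 := by rw [map_sub, hAB, sub_self]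
      have h5 := (hmem (A - B)).mp h4
      have e : (((A - B : 𝓞 E)) : E) = (A : E) - (B : E) := map_sub (algebraMap (𝓞 E) E) A B
      rwa [e] at h5
    have h4 : w.valuation E (X' - Y') < 1 := by
      have e : X' - Y' = ((A : E) - (B : E)) - ((A : E) - X') + ((B : E) - Y') := by ring
      rw [e]
      exact Valuation.map_add_lt _ (Valuation.map_sub_lt _ h3 hkxN) hkyN
    have h5 : w.valuation E (P.derivative.eval Y') < 1 :=
      (deriv_le hPi hX1 hY1 hcol h2).trans_lt h4
    have h6 : w.valuation E ((TT E (p ^ s)).derivative.eval Y') < 1 := by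
      have e : (TT E (p ^ s)).derivative.eval Y' =
          P.derivative.eval Y' - (P - TT E (p ^ s)).derivative.eval Y' := by
        rw [derivative_sub, eval_sub]; ring
      rw [e]
      exact Valuation.map_sub_lt _ h5 (eval_lt hP.derivative hY1)
    have h7 : w.valuation E ((TT E (p ^ s)).derivative.eval (B : E)) < 1 := by
      have e : (TT E (p ^ s)).derivative.eval (B : E) =
          ((TT E (p ^ s)).derivative.eval (B : E) - (TT E (p ^ s)).derivative.eval Y') +
            (TT E (p ^ s)).derivative.eval Y' := by ring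
      rw [e]
      exact Valuation.map_add_lt _
        ((eval_sub_le (TT_int _ (p ^ s)).derivative hB1 hY1).trans_lt hkyN) h6
    have h8 : Ideal.Quotient.mk w.asIdeal ((TT (𝓞 E) (p ^ s)).derivative.eval B) = 0 := by
      rw [hmem, coe_eval, ← derivative_map, map_TT]
      exact h7
    have h9 : (TT (𝓞 E ⧸ w.asIdeal) (p ^ s)).derivative.eval (Ideal.Quotient.mk w.asIdeal B) =
        Ideal.Quotient.mk w.asIdeal ((TT (𝓞 E) (p ^ s)).derivative.eval B) := by
      rw [← map_TT (Ideal.Quotient.mk w.asIdeal), derivative_map, eval_map, eval₂_at_apply]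
    rw [h9, h8]
  · apply TT_finite hp hpk (Ideal.Quotient.mk w.asIdeal a) (Ideal.Quotient.mk w.asIdeal b) N
    left
    rw [← hmk a N, ← hmk b N, ← hA, ← hB]
    refine ⟨hAB, ?_⟩
    have h3 : ∀ t : 𝓞 E, (TT (𝓞 E ⧸ w.asIdeal) (p ^ s)).eval (Ideal.Quotient.mk w.asIdeal t) =
        Ideal.Quotient.mk w.asIdeal ((TT (𝓞 E) (p ^ s)).eval t) := by
      intro t
      rw [← map_TT (Ideal.Quotient.mk w.asIdeal), eval_map, eval₂_at_apply]
    rw [h3, h3]
    have h4 := hkx (N + 1)
    have h5 := hky (N + 1)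
    rw [Function.iterate_succ_apply'] at h4 h5
    rw [h1] at h4
    rw [← hA] at h4
    rw [← hB] at h5
    have h6 : Ideal.Quotient.mk w.asIdeal
        ((TT (𝓞 E) (p ^ s)).eval A - (TT (𝓞 E) (p ^ s)).eval B) = 0 := by
      rw [hmem]
      have e : ((((TT (𝓞 E) (p ^ s)).eval A - (TT (𝓞 E) (p ^ s)).eval B : 𝓞 E)) : E) =
          ((((TT (𝓞 E) (p ^ s)).eval A : 𝓞 E) : E) - (fun z => P.eval z)^[N + 1] y) -
          ((((TT (𝓞 E) (p ^ s)).eval B : 𝓞 E) : E) - (fun z => P.eval z)^[N + 1] y) := by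
        rw [sub_sub_sub_cancel_right]
        exact map_sub (algebraMap (𝓞 E) E) _ _
      rw [e]
      exact Valuation.map_sub_lt _ h4 h5
    rw [map_sub] at h6
    exact sub_eq_zero.mp h6

end residue

section
variable {K : Type*} [Field K] [NumberField K]

theorem aeval_fun {E : Type*} [Field E] [Algebra K E] (f : K[X]) :
    (fun z : E => aeval z f) = fun z : E => (f.map (algebraMap K E)).eval z := by
  funext z
  rw [eval_map_algebraMap]

/-- **Collisions have large degree**: polynomials of prime power degree with Chebyshev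
reduction at a place not above the prime. -/
theorem collision_dick {p s : ℕ} (hp : p.Prime) (hs : 0 < s) (f : K[X])
    (hd : f.natDegree = p ^ s) (v : HeightOneSpectrum (𝓞 K)) (hv : v.valuation K (p : K) = 1)
    (hf : ∀ i, v.valuation K (f.coeff i - (dickson 1 (1 : K) (p ^ s)).coeff i) < 1) :
    ∃ C0 : ℕ, 0 < C0 ∧ ∀ (E : Type*) [Field E] [NumberField E] [Algebra K E] (x y : E) (N : ℕ),
      (fun z : E => aeval z f)^[N + 1] x = (fun z : E => aeval z f)^[N + 1] y →
      (fun z : E => aeval z f)^[N] x ≠ (fun z : E => aeval z f)^[N] y →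
        f.natDegree ^ N ≤ C0 * Module.finrank K E := by
  set Q := Nat.card (𝓞 K ⧸ v.asIdeal) with hQ
  have hQ2 : 2 ≤ Q := two_le_card v
  have hpQ : ¬ p ∣ Q := not_dvd_card hp v hv
  have hq2 : 2 ≤ p ^ s := by
    calc 2 ≤ p := hp.two_le
      _ = p ^ 1 := (pow_one p).symm
      _ ≤ p ^ s := Nat.pow_le_pow_right hp.pos hs
  refine ⟨Q ^ (p + 1) * 2, by positivity, ?_⟩
  intro E _ _ _ x y N heq hne
  obtain ⟨w, e, r, he0, he, hr0, hr, hcard, hw⟩ := UHT.exists_above' v E
  rw [aeval_fun] at heq hne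
  set P := f.map (algebraMap K E) with hPdef
  have hPd : P.natDegree = p ^ s := by rw [hPdef, natDegree_map, hd]
  have hpE : w.valuation E (p : E) = 1 := by
    have := hw (p : K)
    rw [map_natCast (algebraMap K E), hv, one_pow] at this
    exact this.symm
  have hqE : w.valuation E ((p ^ s : ℕ) : E) = 1 := by
    push_cast
    rw [map_pow, hpE, one_pow]
  have hP : SmallP (w.valuation E) (P - TT E (p ^ s)) := by
    intro i
    have e1 : (P - TT E (p ^ s)).coeff i =
        algebraMap K E (f.coeff i - (dickson 1 (1 : K) (p ^ s)).coeff i) := by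
      rw [← map_TT (algebraMap K E), hPdef, ← Polynomial.map_sub, coeff_map, coeff_sub]
      rfl
    rw [e1, ← hw]
    exact pow_lt_one₀ zero_le (hf i) (by omega)
  have hPi : IntP (w.valuation E) P := by
    intro i
    have e : P.coeff i = (P - TT E (p ^ s)).coeff i + (TT E (p ^ s)).coeff i := by
      rw [coeff_sub]; ring
    rw [e]
    exact Valuation.map_add_le _ (hP i).le (TT_int _ _ i)
  have hlead : w.valuation E (P.coeff (p ^ s)) = 1 := by
    have e : P.coeff (p ^ s) = (P - TT E (p ^ s)).coeff (p ^ s) + 1 := by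
      rw [coeff_sub, (TT_coeff E (p ^ s)).2 (by omega)]; ring
    rw [e, Valuation.map_add_eq_of_lt_right _ (by rw [map_one]; exact hP _), map_one]
  have hdvd : p ^ (s * N + 1) ∣ Nat.card (𝓞 E ⧸ w.asIdeal) ^ 2 - 1 := by
    have hout : ∀ x y : E, (fun z => P.eval z)^[N + 1] x = (fun z => P.eval z)^[N + 1] y →
        (fun z => P.eval z)^[N] x ≠ (fun z => P.eval z)^[N] y → 1 < w.valuation E y →
        p ^ (s * N + 1) ∣ Nat.card (𝓞 E ⧸ w.asIdeal) ^ 2 - 1 := by
      intro x y h1 h2 hy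
      have hyo : Out (w.valuation E) (p ^ s) P y := out_of_int hPi hy
      have hx : 1 < w.valuation E x := by
        by_contra hcon
        push Not at hcon
        have h3 := iter_le hPi hcon (N + 1)
        rw [h1, (hyo.iter (by omega) hPd.le hlead (N + 1)).2] at h3
        exact absurd (one_lt_pow₀ hy (pow_ne_zero _ (by omega))) (not_lt.mpr h3)
      have hxo : Out (w.valuation E) (p ^ s) P x := out_of_int hPi hx
      obtain ⟨ρ, hρ1, hρ2, hρ3⟩ := Out.collision (by omega) hqE hPd.le hlead hxo hyo h1 h2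
      refine (UHT.residue_bound w hp hρ1 hρ2 hρ3).trans ?_
      have := Nat.sub_dvd_pow_sub_pow (Nat.card (𝓞 E ⧸ w.asIdeal)) 1 2
      rwa [one_pow] at this
    rcases lt_or_ge 1 (w.valuation E y) with hy | hy
    · exact hout x y heq hne hy
    · rcases lt_or_ge 1 (w.valuation E x) with hx | hx
      · exact hout y x heq.symm hne.symm hx
      · exact dick_res w hp hpE hP hx hy heq hne
  rw [hcard, ← pow_mul] at hdvd
  have h5 := UHT.lte_bound hp hQ2 hpQ (by positivity : 0 < r * 2) hdvd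
  rw [hd]
  calc (p ^ s) ^ N = p ^ (s * N) := by rw [pow_mul]
    _ ≤ p ^ (s * N + 1) := Nat.pow_le_pow_right hp.pos (Nat.le_succ _)
    _ ≤ Q ^ (p + 1) * (r * 2) := h5
    _ ≤ Q ^ (p + 1) * (Module.finrank K E * 2) := by gcongr
    _ = Q ^ (p + 1) * 2 * Module.finrank K E := by ring

end

end Pool.Agent.UH2
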