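import Pool.Agent.UH2.GenDick

/-!
# Collisions for polynomials with power reduction, tame case
-/

set_option autoImplicit false

open Polynomial NumberField IsDedekindDomain
open scoped WithZero

namespace Pool.Agent.UH2

open Pool.Agent.Arb.DB (od u_ne od_mul od_pos od_nonneg od_lt od_le od_eq od_pow)

/-- growth of the order along an orbit -/
theorem seq_growth {q : ℕ} (hq : 2 ≤ q) {e : ℤ} (he : 0 < e) (D : ℕ → ℤ) (N : ℕ) (h0 : 0 < D 0)
    (hstep : ∀ n < N, (q : ℤ) * D n ≤ D (n + 1) ∨ D n + e ≤ D (n + 1)) {B : ℕ}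
    (hN : D N ≤ B * e) : (q : ℤ) ^ N ≤ (q : ℤ) ^ (B + 1) * e := by
  have hq' : (2 : ℤ) ≤ q := by exact_mod_cast hq
  have hpos : ∀ n ≤ N, 0 < D n := by
    intro n
    induction n with
    | zero => intro _; exact h0
    | succ n ih =>
      intro hn
      have h1 := ih (by omega)
      rcases hstep n (by omega) with h | h
      · nlinarith
      · linarith
  have key : ∀ n ≤ N, ((q : ℤ) ^ n ≤ D n ∧ ((q : ℤ) - 1) * D n ≤ e) ∨
      (∃ j : ℕ, (q : ℤ) ^ n ≤ (q : ℤ) ^ (j + 1) * e ∧ j * e ≤ D n ∧ e < ((q : ℤ) - 1) * D n) := by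
    intro n
    induction n with
    | zero =>
      intro _
      rcases le_or_gt (((q : ℤ) - 1) * D 0) e with h | h
      · left
        exact ⟨by rw [pow_zero]; omega, h⟩
      · right
        refine ⟨0, ?_, ?_, h⟩
        · rw [pow_zero, zero_add, pow_one]; nlinarith
        · push_cast; rw [zero_mul]; exact h0.le
    | succ n ih =>
      intro hn
      have hD := hpos n (by omega)
      rcases ih (by omega) with ⟨h1, h2⟩ | ⟨j, h1, h2, h3⟩
      · have h4 : (q : ℤ) * D n ≤ D (n + 1) := by
          rcases hstep n (by omega) with h | h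
          · exact h
          · linarith
        have h5 : (q : ℤ) ^ (n + 1) ≤ D (n + 1) := by
          rw [pow_succ]
          nlinarith
        rcases le_or_gt (((q : ℤ) - 1) * D (n + 1)) e with h | h
        · exact Or.inl ⟨h5, h⟩
        · right
          refine ⟨0, ?_, ?_, h⟩
          · rw [zero_add, pow_one, pow_succ, mul_comm]
            have h6 : (q : ℤ) ^ n ≤ e := by nlinarith
            nlinarith
          · push_cast; rw [zero_mul]; exact (hpos (n + 1) hn).le
      · have h4 : D n + e ≤ D (n + 1) := by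
          rcases hstep n (by omega) with h | h
          · linarith
          · exact h
        right
        refine ⟨j + 1, ?_, ?_, ?_⟩
        · rw [pow_succ (q : ℤ) n, pow_succ (q : ℤ) (j + 1)]
          nlinarith
        · push_cast; linarith
        · nlinarith
  have hqB : (1 : ℤ) ≤ (q : ℤ) ^ (B + 1) := one_le_pow₀ (by omega)
  rcases key N le_rfl with ⟨h1, h2⟩ | ⟨j, h1, h2, _⟩
  · have hD := hpos N le_rfl
    have h3 : (q : ℤ) ^ N ≤ e := by nlinarith
    nlinarith
  · have hj : j ≤ B := by
      by_contra hcon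
      push Not at hcon
      have h4 : ((B : ℤ) + 1) ≤ j := by exact_mod_cast hcon
      nlinarith
    have h5 : (q : ℤ) ^ (j + 1) ≤ (q : ℤ) ^ (B + 1) := pow_le_pow_right₀ (by omega) (by omega)
    nlinarith

section val
variable {F : Type*} [Field F] {u : Valuation F ℤᵐ⁰}

theorem geom_le (z w : F) (n : ℕ) :
    u (z ^ (n + 1) - w ^ (n + 1)) ≤ u (z - w) * max (u z) (u w) ^ n := by
  rw [← (Commute.all z w).geom_sum₂_mul, map_mul, mul_comm]
  refine mul_le_mul_of_nonneg_left ?_ zero_le
  refine Valuation.map_sum_le u fun i hi => ?_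
  have hi' : i ≤ n := by
    have := Finset.mem_range.mp hi; omega
  rw [map_mul, map_pow, map_pow, show n + 1 - 1 - i = n - i by omega]
  calc u z ^ i * u w ^ (n - i) ≤ max (u z) (u w) ^ i * max (u z) (u w) ^ (n - i) :=
        mul_le_mul (pow_le_pow_left₀ zero_le (le_max_left _ _) i)
          (pow_le_pow_left₀ zero_le (le_max_right _ _) _) zero_le zero_le
    _ = max (u z) (u w) ^ n := by rw [← pow_add]; congr 1; omega

/-- a polynomial `a X ^ q + t R`, `R` integral of degree less than `q` -/
theorem split {q : ℕ} {P : F[X]} (hd : P.natDegree ≤ q) {t : F} (ht0 : t ≠ 0)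
    (hP : ∀ i < q, u (P.coeff i) ≤ u t) :
    ∃ R : F[X], IntP u R ∧ P = C (P.coeff q) * X ^ q + C t * R := by
  refine ⟨C t⁻¹ * (P - C (P.coeff q) * X ^ q), fun i => ?_, ?_⟩
  · rw [coeff_C_mul, coeff_sub, coeff_C_mul_X_pow]
    have ht : u t ≠ 0 := (Valuation.ne_zero_iff u).mpr ht0
    rcases lt_trichotomy i q with hi | hi | hi
    · rw [if_neg (by omega), sub_zero, map_mul, map_inv₀, inv_mul_le_iff₀ (zero_lt_iff.mpr ht),
        mul_one]
      exact hP i hi
    · subst hi
      rw [if_pos rfl, sub_self, mul_zero, map_zero]; exact zero_le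
    · rw [if_neg (by omega), coeff_eq_zero_of_natDegree_lt (by omega), sub_zero, mul_zero,
        map_zero]
      exact zero_le
  · rw [← mul_assoc, ← C_mul, mul_inv_cancel₀ ht0, C_1, one_mul]
    ring

theorem inner_step {q : ℕ} (hq : 2 ≤ q) {P : F[X]} (hd : P.natDegree ≤ q)
    (ha : u (P.coeff q) ≤ 1) {t : F} (ht0 : t ≠ 0) (ht : u t < 1)
    (hP : ∀ i < q, u (P.coeff i) ≤ u t) {x : F} (hx : u x < 1) :
    u (P.eval x) < 1 ∧ u (P.eval (P.eval x) - P.eval x) ≤
      u (P.eval x - x) * max (u (P.eval x - x) ^ (q - 1)) (u t) := by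
  obtain ⟨R, hR, hPR⟩ := split hd ht0 hP
  have hev : ∀ z, P.eval z = P.coeff q * z ^ q + t * R.eval z := by
    intro z
    conv_lhs => rw [hPR]
    rw [eval_add, eval_mul, eval_mul, eval_C, eval_C, eval_pow, eval_X]
  obtain ⟨m, rfl⟩ : ∃ m, q = m + 1 := ⟨q - 1, by omega⟩
  have hm : m ≠ 0 := by omega
  have hval : ∀ z, u z < 1 → u (P.eval z) ≤ max (u z ^ (m + 1)) (u t) := by
    intro z hz
    rw [hev]
    refine Valuation.map_add_le u ?_ ?_
    · rw [map_mul, map_pow]
      exact (mul_le_of_le_one_left zero_le ha).trans (le_max_left _ _)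
    · rw [map_mul]
      exact (mul_le_of_le_one_right zero_le (eval_le hR hz.le)).trans (le_max_right _ _)
  have hpowx : u x ^ (m + 1) ≤ u x := by
    rw [pow_succ]
    exact mul_le_of_le_one_left zero_le (pow_le_one₀ zero_le hx.le)
  have hPx : u (P.eval x) ≤ max (u x) (u t) :=
    (hval x hx).trans (max_le_max hpowx le_rfl)
  have hPx1 : u (P.eval x) < 1 := hPx.trans_lt (max_lt hx ht)
  refine ⟨hPx1, ?_⟩
  set d := u (P.eval x - x) with hdd
  -- `|x| ≤ max (d, |t|)`
  have hxd : u x ≤ max d (u t) := by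
    rcases le_or_gt (u x) (u t) with h | h
    · exact h.trans (le_max_right _ _)
    · have hx0 : 0 < u x := zero_le.trans_lt h
      have h1 : u x ^ (m + 1) < u x := pow_lt_self_of_lt_one₀ hx0 hx (by omega)
      have h2 : u (P.eval x) < u x := (hval x hx).trans_lt (max_lt h1 h)
      have h3 : d = u x := by
        rw [hdd, Valuation.map_sub_swap, Valuation.map_sub_eq_of_lt_left u h2]
      rw [h3]; exact le_max_left _ _
  have hM : max (u (P.eval x)) (u x) ≤ max d (u t) :=
    max_le (hPx.trans (max_le hxd (le_max_right _ _))) hxd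
  have h4 : max (u (P.eval x)) (u x) ^ m ≤ max (d ^ m) (u t) := by
    calc max (u (P.eval x)) (u x) ^ m ≤ max d (u t) ^ m := pow_le_pow_left₀ zero_le hM m
      _ ≤ max (d ^ m) (u t) := by
        rcases le_total d (u t) with h | h
        · rw [max_eq_right h]
          refine le_trans ?_ (le_max_right _ _)
          obtain ⟨k, rfl⟩ : ∃ k, m = k + 1 := ⟨m - 1, by omega⟩
          rw [pow_succ]
          exact mul_le_of_le_one_left zero_le (pow_le_one₀ zero_le ht.le)
        · rw [max_eq_left h]; exact le_max_left _ _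
  have e : P.eval (P.eval x) - P.eval x =
      P.coeff (m + 1) * (P.eval x ^ (m + 1) - x ^ (m + 1)) +
        t * (R.eval (P.eval x) - R.eval x) := by
    rw [hev (P.eval x)]
    conv_lhs => rw [hev x]
    rw [hev x]
    ring
  rw [e, Nat.add_sub_cancel]
  refine Valuation.map_add_le u ?_ ?_
  · rw [map_mul]
    refine (mul_le_of_le_one_left zero_le ha).trans ?_
    refine (geom_le _ _ m).trans ?_
    exact mul_le_mul_of_nonneg_left h4 zero_le
  · rw [map_mul, mul_comm]
    have h5 := eval_sub_le hR hPx1.le hx.le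
    exact mul_le_mul h5 (le_max_right _ _) zero_le zero_le

/-- **Collisions near the attracting fixed point.** -/
theorem inner_collision {q : ℕ} (hq : 2 ≤ q) {P : F[X]} (hd : P.natDegree ≤ q)
    (ha : u (P.coeff q) ≤ 1) {t : F} (ht0 : t ≠ 0) (ht : u t < 1)
    (hP : ∀ i < q, u (P.coeff i) ≤ u t) {b : F} (hb0 : b ≠ 0)
    (hb : ∀ z, u z < 1 → u b ≤ max (u (P.eval z - z)) (u (P.derivative.eval z)))
    {B : ℕ} (hB : od u b ≤ B * od u t) {x y : F} (hx : u x < 1) (hy : u y < 1) {N : ℕ}
    (h1 : (fun z => P.eval z)^[N + 1] x = (fun z => P.eval z)^[N + 1] y)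
    (h2 : (fun z => P.eval z)^[N] x ≠ (fun z => P.eval z)^[N] y) :
    (q : ℤ) ^ N ≤ (q : ℤ) ^ (B + 1) * od u t := by
  have hPi : IntP u P := by
    intro i
    rcases lt_trichotomy i q with hi | hi | hi
    · exact (hP i hi).trans ht.le
    · rw [hi]; exact ha
    · rw [coeff_eq_zero_of_natDegree_lt (by omega), map_zero]; exact zero_le
  have hodt : 0 < od u t := (od_pos u ht0).mp ht
  have hlt : ∀ z, u z < 1 → ∀ n, u ((fun z => P.eval z)^[n] z) < 1 := by
    intro z hz n
    induction n with
    | zero => exact hz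
    | succ n ih =>
      rw [Function.iterate_succ_apply']
      exact (inner_step hq hd ha ht0 ht hP ih).1
  -- one orbit with large `d` at time `N`
  have main : ∀ z, u z < 1 → u b ≤ u (P.eval ((fun z => P.eval z)^[N] z) -
      (fun z => P.eval z)^[N] z) → (q : ℤ) ^ N ≤ (q : ℤ) ^ (B + 1) * od u t := by
    intro z hz hbz
    set W : ℕ → F := fun n => (fun z => P.eval z)^[n] z with hW
    have hWs : ∀ n, W (n + 1) = P.eval (W n) := by
      intro n
      change (fun z => P.eval z)^[n + 1] z = _
      rw [Function.iterate_succ_apply']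
    have hne : ∀ n ≤ N, P.eval (W n) - W n ≠ 0 := by
      intro n hn h0
      have h3 : ∀ k, W (n + k) = W n := by
        intro k
        induction k with
        | zero => rfl
        | succ k ih =>
          rw [← add_assoc, hWs, ih]
          exact sub_eq_zero.mp h0
      have h4 := h3 (N - n)
      rw [Nat.add_sub_cancel' hn] at h4
      change u b ≤ u (P.eval (W N) - W N) at hbz
      rw [h4, h0, map_zero] at hbz
      exact hb0 ((Valuation.zero_iff u).mp (le_antisymm hbz zero_le))
    refine seq_growth hq hodt (fun n => od u (P.eval (W n) - W n)) N ?_ ?_ ?_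
    · have h3 : u (P.eval (W 0) - W 0) < 1 :=
        Valuation.map_sub_lt u (inner_step hq hd ha ht0 ht hP hz).1 hz
      exact (od_pos u (hne 0 (Nat.zero_le _))).mp h3
    · intro n hn
      have h3 := (inner_step hq hd ha ht0 ht hP (hlt z hz n)).2
      change u (P.eval (P.eval (W n)) - P.eval (W n)) ≤
        u (P.eval (W n) - W n) * max (u (P.eval (W n) - W n) ^ (q - 1)) (u t) at h3
      rw [← hWs n] at h3
      have hn1 := hne (n + 1) (by omega)
      have hn0 := hne n (by omega)
      rw [← hWs n] at hn0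
      change (q : ℤ) * od u (P.eval (W n) - W n) ≤ od u (P.eval (W (n + 1)) - W (n + 1)) ∨
        od u (P.eval (W n) - W n) + od u t ≤ od u (P.eval (W (n + 1)) - W (n + 1))
      rw [← hWs n]
      rcases le_total (u (W (n + 1) - W n) ^ (q - 1)) (u t) with h | h
      · right
        rw [max_eq_right h, ← map_mul] at h3
        have h4 := (od_le u hn1 (mul_ne_zero hn0 ht0)).mp h3
        rw [od_mul u hn0 ht0] at h4
        exact h4
      · left
        have e : u (W (n + 1) - W n) * u (W (n + 1) - W n) ^ (q - 1) =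
            u (W (n + 1) - W n) ^ q := by
          rw [← pow_succ']; congr 1; omega
        rw [max_eq_left h, e] at h3
        rw [← map_pow] at h3
        have h4 := (od_le u hn1 (pow_ne_zero q hn0)).mp h3
        rw [od_pow u q u (map_pow u _ _)] at h4
        exact h4
    · have h3 := (od_le u hb0 (hne N le_rfl)).mp hbz
      exact h3.trans hB
  set X' := (fun z => P.eval z)^[N] x with hX
  set Y' := (fun z => P.eval z)^[N] y with hY
  have hX1 : u X' < 1 := hlt x hx N
  have hY1 : u Y' < 1 := hlt y hy N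
  have hcol : P.eval X' = P.eval Y' := by
    rw [Function.iterate_succ_apply', Function.iterate_succ_apply'] at h1
    exact h1
  have h3 : u (X' - Y') ≤ max (u (P.eval X' - X')) (u (P.eval Y' - Y')) := by
    have e : X' - Y' = (P.eval Y' - Y') - (P.eval X' - X') := by rw [hcol]; ring
    rw [e]
    refine Valuation.map_sub_le u (le_max_right _ _) (le_max_left _ _)
  have h4 := hb Y' hY1
  have h5 : u b ≤ max (u (P.eval X' - X')) (u (P.eval Y' - Y')) :=
    h4.trans (max_le (le_max_right _ _)
      ((deriv_le hPi hX1.le hY1.le hcol h2).trans h3))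
  rcases le_max_iff.mp h5 with h | h
  · exact main x hx h
  · exact main y hy h

end val

theorem le_exp_neg_one {x : ℤᵐ⁰} (h : x < 1) : x ≤ WithZero.exp (-1 : ℤ) := by
  by_cases hx : x = 0
  · rw [hx]; exact zero_le
  · rw [← WithZero.exp_log hx] at h ⊢
    rw [← WithZero.exp_zero, WithZero.exp_lt_exp] at h
    rw [WithZero.exp_le_exp]
    omega

section
variable {K : Type*} [Field K] [NumberField K]

/-- clearing denominators in a Bezout relation -/
theorem exists_clear (A B : K[X]) : ∃ c : 𝓞 K, c ≠ 0 ∧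
    ∀ (v : HeightOneSpectrum (𝓞 K)) (i : ℕ), v.valuation K ((c : K) * A.coeff i) ≤ 1 ∧
      v.valuation K ((c : K) * B.coeff i) ≤ 1 := by
  classical
  obtain ⟨c, hc⟩ := IsLocalization.exist_integer_multiples_of_finset (nonZeroDivisors (𝓞 K))
    (A.coeffs ∪ B.coeffs)
  have key : ∀ (v : HeightOneSpectrum (𝓞 K)) (a : K), a ∈ A.coeffs ∪ B.coeffs →
      v.valuation K (((c : 𝓞 K) : K) * a) ≤ 1 := by
    intro v a ha
    obtain ⟨r, hr⟩ := hc a ha
    have e : ((c : 𝓞 K) : K) * a = algebraMap (𝓞 K) K r := by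
      rw [hr, Algebra.smul_def]
    rw [e]
    exact v.valuation_le_one r
  refine ⟨c, nonZeroDivisors.ne_zero c.2, fun v i => ⟨?_, ?_⟩⟩
  · by_cases h : A.coeff i = 0
    · rw [h, mul_zero, map_zero]; exact zero_le
    · exact key v _ (Finset.mem_union_left _ (coeff_mem_coeffs h))
  · by_cases h : B.coeff i = 0
    · rw [h, mul_zero, map_zero]; exact zero_le
    · exact key v _ (Finset.mem_union_right _ (coeff_mem_coeffs h))

/-- **Collisions have large degree**: polynomials of prime power degree whose reduction at a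
place not above the prime is `a X ^ q`, without superattracting fixed point. -/
theorem collision_pow {p s : ℕ} (hp : p.Prime) (hs : 0 < s) (f : K[X])
    (hd : f.natDegree = p ^ s) (v : HeightOneSpectrum (𝓞 K)) (hv : v.valuation K (p : K) = 1)
    (hlead : v.valuation K f.leadingCoeff = 1) (hf : ∀ i < p ^ s, v.valuation K (f.coeff i) < 1)
    (hcrit : IsCoprime (f - X) f.derivative) :
    ∃ C0 : ℕ, 0 < C0 ∧ ∀ (E : Type*) [Field E] [NumberField E] [Algebra K E] (x y : E) (N : ℕ),
      (fun z : E => aeval z f)^[N + 1] x = (fun z : E => aeval z f)^[N + 1] y →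
      (fun z : E => aeval z f)^[N] x ≠ (fun z : E => aeval z f)^[N] y →
        f.natDegree ^ N ≤ C0 * Module.finrank K E := by
  set Q := Nat.card (𝓞 K ⧸ v.asIdeal) with hQ
  have hQ2 : 2 ≤ Q := two_le_card v
  have hpQ : ¬ p ∣ Q := not_dvd_card hp v hv
  have hq2 : 2 ≤ p ^ s := by
    calc 2 ≤ p := hp.two_le
      _ = p ^ 1 := (pow_one p).symm
      _ ≤ p ^ s := Nat.pow_le_pow_right hp.pos hs
  obtain ⟨A, B, hAB⟩ := hcrit
  obtain ⟨c, hc0, hc⟩ := exists_clear A B
  obtain ⟨t, ht⟩ := v.valuation_exists_uniformizer K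
  have hcK : (c : K) ≠ 0 := by
    intro h
    exact hc0 (RingOfIntegers.coe_injective (h.trans (map_zero (algebraMap (𝓞 K) K)).symm))
  have ht1 : v.valuation K t < 1 := by
    rw [ht, ← WithZero.exp_zero, WithZero.exp_lt_exp]; norm_num
  have ht0 : t ≠ 0 := by
    rintro rfl
    rw [map_zero] at ht
    exact (WithZero.exp_ne_zero (a := (-1 : ℤ))) ht.symm
  have hT : 0 < od (v.valuation K) t := (od_pos _ ht0).mp ht1
  set T := od (v.valuation K) t with hTdef
  set b := (od (v.valuation K) (c : K)).toNat with hb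
  refine ⟨(p ^ s) ^ (b + 1) * T.toNat + Q ^ (p + 1), by positivity, ?_⟩
  intro E _ _ _ x y N heq hne
  obtain ⟨w, e, r, he0, he, hr0, hr, hcard, hw⟩ := UHT.exists_above' v E
  rw [aeval_fun] at heq hne
  set P := f.map (algebraMap K E) with hPdef
  have hPd : P.natDegree = p ^ s := by rw [hPdef, natDegree_map, hd]
  have hpE : w.valuation E (p : E) = 1 := by
    have := hw (p : K)
    rw [map_natCast (algebraMap K E), hv, one_pow] at this
    exact this.symm
  have hqE : w.valuation E ((p ^ s : ℕ) : E) = 1 := by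
    push_cast
    rw [map_pow, hpE, one_pow]
  have hPlead : w.valuation E (P.coeff (p ^ s)) = 1 := by
    rw [hPdef, coeff_map, ← hw, ← hd, coeff_natDegree, hlead, one_pow]
  set tE := algebraMap K E t with htE
  have htE0 : tE ≠ 0 := by rw [htE, ne_eq, map_eq_zero]; exact ht0
  have htE1 : w.valuation E tE < 1 := by
    rw [htE, ← hw]; exact pow_lt_one₀ zero_le ht1 (by omega)
  have hPt : ∀ i < p ^ s, w.valuation E (P.coeff i) ≤ w.valuation E tE := by
    intro i hi
    rw [hPdef, coeff_map, htE, ← hw, ← hw]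
    refine pow_le_pow_left₀ zero_le ?_ e
    rw [ht]
    exact le_exp_neg_one (hf i hi)
  have hPsmall : ∀ i < p ^ s, w.valuation E (P.coeff i) < 1 :=
    fun i hi => (hPt i hi).trans_lt htE1
  set cE := algebraMap K E (c : K) with hcE
  have hcE0 : cE ≠ 0 := by rw [hcE, ne_eq, map_eq_zero]; exact hcK
  have hbez : ∀ z : E, w.valuation E z < 1 →
      w.valuation E cE ≤ max (w.valuation E (P.eval z - z))
        (w.valuation E (P.derivative.eval z)) := by
    intro z hz
    have hAi : IntP (w.valuation E) ((C (c : K) * A).map (algebraMap K E)) := by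
      intro i
      rw [coeff_map, coeff_C_mul, ← hw]
      exact pow_le_one₀ zero_le (hc v i).1
    have hBi : IntP (w.valuation E) ((C (c : K) * B).map (algebraMap K E)) := by
      intro i
      rw [coeff_map, coeff_C_mul, ← hw]
      exact pow_le_one₀ zero_le (hc v i).2
    have e1 : (C (c : K) * A) * (f - X) + (C (c : K) * B) * f.derivative = C (c : K) := by
      linear_combination (C (c : K)) * hAB
    have e2 := congrArg (fun g : K[X] => (g.map (algebraMap K E)).eval z) e1
    simp only [Polynomial.map_add, Polynomial.map_mul, Polynomial.map_sub, map_X, map_C,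
      eval_add, eval_mul, eval_sub, eval_X, eval_C, ← derivative_map, ← hPdef] at e2
    rw [← hcE] at e2
    rw [← e2]
    have hA1 := eval_le hAi hz.le
    have hB1 := eval_le hBi hz.le
    rw [Polynomial.map_mul, map_C, eval_mul, eval_C, ← hcE] at hA1 hB1
    refine Valuation.map_add_le _ ?_ ?_
    · rw [map_mul]
      exact (mul_le_of_le_one_left zero_le hA1).trans (le_max_left _ _)
    · rw [map_mul]
      exact (mul_le_of_le_one_left zero_le hB1).trans (le_max_right _ _)
  have hodt : od (w.valuation E) tE = e * T := od_pow (v.valuation K) e (w.valuation E) (hw t).symm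
  have hodc : od (w.valuation E) cE = e * od (v.valuation K) (c : K) :=
    od_pow (v.valuation K) e (w.valuation E) (hw (c : K)).symm
  rw [hd]
  have hlt : ∀ z : E, w.valuation E z < 1 → ∀ n,
      w.valuation E ((fun z => P.eval z)^[n] z) < 1 := by
    intro z hz n
    induction n with
    | zero => exact hz
    | succ n ih =>
      rw [Function.iterate_succ_apply']
      exact (inner_step hq2 hPd.le hPlead.le htE0 htE1 hPt ih).1
  have hsame : ∀ x y : E, (fun z => P.eval z)^[N + 1] x = (fun z => P.eval z)^[N + 1] y →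
      w.valuation E x < 1 → w.valuation E y < 1 := by
    intro x y h1 hx
    by_contra hcon
    push Not at hcon
    have h3 := hlt x hx (N + 1)
    rw [h1, ((out_of_small hPsmall hcon).iter (by omega) hPd.le hPlead (N + 1)).2] at h3
    exact absurd (one_le_pow₀ hcon) (not_le.mpr h3)
  rcases lt_or_ge (w.valuation E x) 1 with hx | hx
  · have hy := hsame x y heq hx
    -- both in the disc
    have hB : od (w.valuation E) cE ≤ b * od (w.valuation E) tE := by
      rw [hodt, hodc]
      have h1 : od (v.valuation K) (c : K) ≤ b := Int.self_le_toNat _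
      have h2 : (1 : ℤ) ≤ T := hT
      have h3 : (0 : ℤ) ≤ e := by positivity
      have h4 : (0 : ℤ) ≤ b := by positivity
      have h5 : (e : ℤ) * od (v.valuation K) (c : K) ≤ e * b :=
        mul_le_mul_of_nonneg_left h1 h3
      have h6 : (e : ℤ) * b * 1 ≤ e * b * T :=
        mul_le_mul_of_nonneg_left h2 (mul_nonneg h3 h4)
      linarith
    have h7 := inner_collision hq2 hPd.le hPlead.le htE0 htE1 hPt hcE0 hbez hB hx hy heq hne
    rw [hodt] at h7
    have h8 : ((e : ℕ) : ℤ) ≤ Module.finrank K E := by exact_mod_cast he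
    have h9 : (((p ^ s) ^ N : ℕ) : ℤ) ≤
        (((p ^ s) ^ (b + 1) * T.toNat * Module.finrank K E : ℕ) : ℤ) := by
      push_cast at h7 ⊢
      rw [Int.toNat_of_nonneg hT.le]
      refine h7.trans ?_
      have h10 : (0 : ℤ) ≤ ((p : ℤ) ^ s) ^ (b + 1) := by positivity
      calc ((p : ℤ) ^ s) ^ (b + 1) * (e * T) ≤
          ((p : ℤ) ^ s) ^ (b + 1) * (Module.finrank K E * T) := by
            refine mul_le_mul_of_nonneg_left ?_ h10
            exact mul_le_mul_of_nonneg_right h8 hT.le
        _ = _ := by ring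
    have h11 : (p ^ s) ^ N ≤ (p ^ s) ^ (b + 1) * T.toNat * Module.finrank K E := by
      exact_mod_cast h9
    exact h11.trans (Nat.mul_le_mul_right _ (Nat.le_add_right _ _))
  · have hy : 1 ≤ w.valuation E y := by
      by_contra hcon
      push Not at hcon
      exact absurd (hsame y x heq.symm hcon) (not_lt.mpr hx)
    obtain ⟨ρ, hρ1, hρ2, hρ3⟩ := Out.collision (by omega) hqE hPd.le hPlead
      (out_of_small hPsmall hx) (out_of_small hPsmall hy) heq hne
    have h4 := UHT.residue_bound w hp hρ1 hρ2 hρ3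
    rw [hcard] at h4
    have h5 := UHT.lte_bound hp hQ2 hpQ hr0 h4
    calc (p ^ s) ^ N = p ^ (s * N) := by rw [pow_mul]
      _ ≤ p ^ (s * N + 1) := Nat.pow_le_pow_right hp.pos (Nat.le_succ _)
      _ ≤ Q ^ (p + 1) * r := h5
      _ ≤ Q ^ (p + 1) * Module.finrank K E := Nat.mul_le_mul_left _ hr
      _ ≤ _ := Nat.mul_le_mul_right _ (Nat.le_add_left _ _)

end

end Pool.Agent.UH2
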