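import Pool.Agent.UH2.Ord
import Pool.Agent.UH.Loc

/-!
# Residual orders: the Chebyshev reduction and the exterior of the unit disc
-/

set_option autoImplicit false

open NumberField IsDedekindDomain
open scoped WithZero

namespace Pool.Agent.UH2

open Pool.Agent.UH

section finite
variable {k : Type*} [Field k] [Fintype k]

/-- Every element of a finite field is `z + z⁻¹` for some `z` in the quadratic extension. -/
theorem exists_z (α : k) : ∃ z : AlgebraicClosure k, z ≠ 0 ∧ z + z⁻¹ = algebraMap k _ α ∧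
    z ^ ((Fintype.card k) ^ 2 - 1) = 1 := by
  set A := algebraMap k (AlgebraicClosure k) α with hA
  obtain ⟨z, hz⟩ := IsAlgClosed.exists_root
    (Polynomial.X ^ 2 - Polynomial.C A * Polynomial.X + 1 : Polynomial (AlgebraicClosure k)) (by
      have : (Polynomial.X ^ 2 - Polynomial.C A * Polynomial.X + 1 :
        Polynomial (AlgebraicClosure k)).degree = 2 := by
        have e : (Polynomial.X ^ 2 - Polynomial.C A * Polynomial.X + 1 :
          Polynomial (AlgebraicClosure k)) =
          Polynomial.C 1 * Polynomial.X ^ 2 + Polynomial.C (-A) * Polynomial.X +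
            Polynomial.C 1 := by
          simp; ring
        rw [e]
        exact Polynomial.degree_quadratic one_ne_zero
      rw [this]; decide)
  have hz' : z ^ 2 - A * z + 1 = 0 := by
    simpa using hz
  have hz0 : z ≠ 0 := by
    rintro rfl
    simp at hz'
  have hzA : z + z⁻¹ = A := by
    field_simp
    linear_combination hz'
  refine ⟨z, hz0, hzA, ?_⟩
  set F := FiniteField.frobeniusAlgHom k (AlgebraicClosure k) with hF
  have hFz : ∀ w, F w = w ^ Fintype.card k := fun w => rfl
  have h1 : F z + (F z)⁻¹ = z + z⁻¹ := by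
    rw [← map_inv₀, ← map_add, hzA, hA, AlgHom.commutes]
  have hF0 : F z ≠ 0 := by
    rw [hFz]; exact pow_ne_zero _ hz0
  have h2 : (F z - z) * (F z * z - 1) = 0 := by
    have : (F z + (F z)⁻¹) * (F z * z) = (z + z⁻¹) * (F z * z) := by rw [h1]
    field_simp at this
    linear_combination this
  have h3 : F (F z) = z := by
    rcases mul_eq_zero.mp h2 with h | h
    · have : F z = z := sub_eq_zero.mp h
      rw [this, this]
    · have h4 : F z = z⁻¹ := by
        exact eq_inv_of_mul_eq_one_left (sub_eq_zero.mp h)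
      rw [h4, map_inv₀, h4, inv_inv]
  have h5 : z ^ (Fintype.card k) ^ 2 = z := by
    rw [hFz, hFz, ← pow_mul, ← sq] at h3
    exact h3
  have h6 : z ^ ((Fintype.card k) ^ 2 - 1) * z = z := by
    rw [← pow_succ, Nat.sub_add_cancel (Nat.one_le_pow _ _ Fintype.card_pos)]
    exact h5
  exact mul_right_cancel₀ hz0 (by rw [h6, one_mul])

theorem cheb_iter {A : Type*} [Field A] (z : A) (hz : z ≠ 0) (n : ℕ) :
    (fun t : A => t ^ 2 - 2)^[n] (z + z⁻¹) = z ^ 2 ^ n + (z ^ 2 ^ n)⁻¹ := by
  induction n with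
  | zero => simp
  | succ n ih =>
    rw [Function.iterate_succ_apply', ih]
    have h : z ^ 2 ^ n ≠ 0 := pow_ne_zero _ hz
    rw [pow_succ 2 n, pow_mul]
    field_simp
    ring

/-- **Opposite iterates of the Chebyshev polynomial in a finite field.** -/
theorem cheb_finite (h2 : (2 : k) ≠ 0) (α β : k) (N : ℕ)
    (h : (fun t : k => t ^ 2 - 2)^[N] α + (fun t : k => t ^ 2 - 2)^[N] β = 0) :
    2 ^ (N + 1) ∣ (Fintype.card k) ^ 2 - 1 := by
  obtain ⟨z, hz0, hz, hz1⟩ := exists_z α
  obtain ⟨u, hu0, hu, hu1⟩ := exists_z β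
  have hmap : ∀ (a : k) (n : ℕ), algebraMap k (AlgebraicClosure k)
      ((fun t : k => t ^ 2 - 2)^[n] a) =
        (fun t : AlgebraicClosure k => t ^ 2 - 2)^[n] (algebraMap k _ a) := by
    intro a n
    induction n generalizing a with
    | zero => rfl
    | succ n ih =>
      rw [Function.iterate_succ_apply, Function.iterate_succ_apply, ih]
      congr 1
      rw [map_sub, map_pow, map_ofNat (algebraMap k (AlgebraicClosure k)) 2]
  have h3 := congrArg (algebraMap k (AlgebraicClosure k)) h
  rw [map_add, map_zero, hmap, hmap, ← hz, ← hu, cheb_iter z hz0, cheb_iter u hu0] at h3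
  have h2' : (2 : AlgebraicClosure k) ≠ 0 := by
    have := (map_ne_zero (algebraMap k (AlgebraicClosure k))).mpr h2
    rwa [map_ofNat (algebraMap k (AlgebraicClosure k)) 2] at this
  set Z := z ^ 2 ^ N with hZ
  set U := u ^ 2 ^ N with hU
  have hZ0 : Z ≠ 0 := pow_ne_zero _ hz0
  have hU0 : U ≠ 0 := pow_ne_zero _ hu0
  have h4 : (Z + U) * (Z * U + 1) = 0 := by
    field_simp at h3
    linear_combination h3
  have key : ∃ ζ : AlgebraicClosure k, ζ ^ 2 ^ N = -1 ∧ ζ ^ ((Fintype.card k) ^ 2 - 1) = 1 := by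
    rcases mul_eq_zero.mp h4 with h5 | h5
    · refine ⟨z / u, ?_, ?_⟩
      · rw [div_pow, ← hZ, ← hU, div_eq_iff hU0]
        linear_combination h5
      · rw [div_pow, hz1, hu1, div_one]
    · refine ⟨z * u, ?_, ?_⟩
      · rw [mul_pow, ← hZ, ← hU]
        linear_combination h5
      · rw [mul_pow, hz1, hu1, one_mul]
  obtain ⟨ζ, hζ1, hζ2⟩ := key
  have hp2 : Fact (Nat.Prime 2) := ⟨Nat.prime_two⟩
  have h6 : orderOf ζ = 2 ^ (N + 1) := by
    refine orderOf_eq_prime_pow ?_ ?_
    · rw [hζ1]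
      intro h7
      apply h2'
      linear_combination -h7
    · rw [pow_succ 2 N, pow_mul, hζ1]; norm_num
  rw [← h6]
  exact orderOf_dvd_of_pow_eq_one hζ2

end finite

section residue
variable {E : Type*} [Field E] [NumberField E] (w : HeightOneSpectrum (𝓞 E))

theorem exists_approx {x : E} (hx : w.valuation E x ≤ 1) :
    ∃ a : 𝓞 E, w.valuation E ((a : E) - x) < 1 := by
  obtain ⟨a, ha⟩ := w.exists_valuation_sub_lt_of_integer hx 1
  exact ⟨a, by simpa using ha⟩

/-- the inner case -/
theorem cheb_res (h2 : w.valuation E 2 = 1) {c : E} (hc : w.valuation E (c + 2) < 1)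
    {x y : E} (hx : w.valuation E x ≤ 1) (hy : w.valuation E y ≤ 1) (N : ℕ)
    (h : (fc 2 c)^[N] x + (fc 2 c)^[N] y = 0) :
    2 ^ (N + 1) ∣ (Ideal.absNorm w.asIdeal) ^ 2 - 1 := by
  classical
  have hfin : Finite (𝓞 E ⧸ w.asIdeal) := Ideal.finiteQuotientOfFreeOfNeBot _ w.ne_bot
  have hmax : w.asIdeal.IsMaximal := w.isMaximal
  let _ : Field (𝓞 E ⧸ w.asIdeal) := Ideal.Quotient.field _
  let _ : Fintype (𝓞 E ⧸ w.asIdeal) := Fintype.ofFinite _
  have hcard : Ideal.absNorm w.asIdeal = Fintype.card (𝓞 E ⧸ w.asIdeal) := by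
    rw [Ideal.absNorm_apply, Submodule.cardQuot_apply, Nat.card_eq_fintype_card]
  obtain ⟨a, ha⟩ := exists_approx w hx
  obtain ⟨b, hb⟩ := exists_approx w hy
  have hcle : w.valuation E c ≤ 1 := by
    have e : c = (c + 2) - 2 := by ring
    rw [e]
    exact Valuation.map_sub_le _ hc.le h2.le
  -- the residual iterates
  have key : ∀ (a : 𝓞 E) (x : E), w.valuation E x ≤ 1 → w.valuation E ((a : E) - x) < 1 →
      ∀ n, w.valuation E (((((fun t : 𝓞 E => t ^ 2 - 2)^[n] a : 𝓞 E)) : E) -
        (fc 2 c)^[n] x) < 1 := by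
    intro a x hx ha n
    induction n with
    | zero => exact ha
    | succ n ih =>
      rw [Function.iterate_succ_apply', Function.iterate_succ_apply']
      set t := (fun t : 𝓞 E => t ^ 2 - 2)^[n] a with ht
      set X := (fc 2 c)^[n] x with hX
      have hX1 : w.valuation E X ≤ 1 := iter_int (w.valuation E) hcle hx n
      have ht1 : w.valuation E (t : E) ≤ 1 := w.valuation_le_one t
      have e : (((t ^ 2 - 2 : 𝓞 E)) : E) - fc 2 c X = ((t : E) - X) * ((t : E) + X) - (c + 2) := by
        have e2 : (((t ^ 2 - 2 : 𝓞 E)) : E) = (t : E) ^ 2 - 2 := by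
          change algebraMap (𝓞 E) E (t ^ 2 - 2) = _
          rw [map_sub, map_pow, map_ofNat (algebraMap (𝓞 E) E) 2]
        rw [e2]
        unfold fc
        ring
      have e' : ((((fun t : 𝓞 E => t ^ 2 - 2) t : 𝓞 E)) : E) - fc 2 c X =
          ((t : E) - X) * ((t : E) + X) - (c + 2) := e
      rw [e']
      refine Valuation.map_sub_lt _ ?_ hc
      rw [map_mul]
      calc w.valuation E ((t : E) - X) * w.valuation E ((t : E) + X)
          ≤ w.valuation E ((t : E) - X) * 1 := by
            gcongr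
            exact Valuation.map_add_le _ ht1 hX1
        _ < 1 := by rw [mul_one]; exact ih
  have h3 := key a x hx ha N
  have h4 := key b y hy hb N
  set ta := (fun t : 𝓞 E => t ^ 2 - 2)^[N] a with hta
  set tb := (fun t : 𝓞 E => t ^ 2 - 2)^[N] b with htb
  have h5 : ta + tb ∈ w.asIdeal := by
    rw [← w.valuation_lt_one_iff_mem (K := E)]
    have e : algebraMap (𝓞 E) E (ta + tb) =
        ((ta : E) - (fc 2 c)^[N] x) + ((tb : E) - (fc 2 c)^[N] y) := by
      rw [map_add]
      linear_combination h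
    change w.valuation E (algebraMap (𝓞 E) E (ta + tb)) < 1
    rw [e]
    exact Valuation.map_add_lt _ h3 h4
  have hmk : ∀ (a : 𝓞 E) (n : ℕ), Ideal.Quotient.mk w.asIdeal
      ((fun t : 𝓞 E => t ^ 2 - 2)^[n] a) =
        (fun t : 𝓞 E ⧸ w.asIdeal => t ^ 2 - 2)^[n] (Ideal.Quotient.mk w.asIdeal a) := by
    intro a n
    induction n generalizing a with
    | zero => rfl
    | succ n ih =>
      rw [Function.iterate_succ_apply, Function.iterate_succ_apply, ih]
      congr 1
  have h6 := Ideal.Quotient.eq_zero_iff_mem.mpr h5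
  rw [map_add, hta, htb, hmk, hmk] at h6
  have h22 : (2 : 𝓞 E ⧸ w.asIdeal) ≠ 0 := by
    intro h7
    have h8 : (2 : 𝓞 E) ∈ w.asIdeal := by
      rw [← Ideal.Quotient.eq_zero_iff_mem, map_ofNat (Ideal.Quotient.mk w.asIdeal) 2]
      exact h7
    rw [← w.valuation_lt_one_iff_mem (K := E)] at h8
    have h9 : algebraMap (𝓞 E) E 2 = 2 := map_ofNat _ 2
    change w.valuation E (algebraMap (𝓞 E) E 2) < 1 at h8
    rw [h9, h2] at h8
    exact lt_irrefl _ h8
  rw [hcard]
  exact cheb_finite h22 _ _ N h6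

end residue

end Pool.Agent.UH2
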