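import Pool.Agent.UH2.Cheb

/-!
# Collisions for `X ^ 2 + c` with Chebyshev reduction at a place not above two
-/

set_option autoImplicit false

open NumberField IsDedekindDomain
open scoped WithZero

namespace Pool.Agent.UH2

open Pool.Agent.UH Pool.Agent.Arb

section
variable {E : Type*} [Field E] [NumberField E] (w : HeightOneSpectrum (𝓞 E))

theorem fc_out {c y : E} (hc : w.valuation E c ≤ 1) (hy : 1 < w.valuation E y) :
    w.valuation E (fc 2 c y) = w.valuation E y ^ 2 := by
  unfold fc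
  have h : w.valuation E c < w.valuation E (y ^ 2) := by
    rw [map_pow]; exact hc.trans_lt (one_lt_pow₀ hy (by norm_num))
  rw [Valuation.map_add_eq_of_lt_left _ h, map_pow]

theorem iter_out {c y : E} (hc : w.valuation E c ≤ 1) (hy : 1 < w.valuation E y) (n : ℕ) :
    w.valuation E ((fc 2 c)^[n] y) = w.valuation E y ^ 2 ^ n := by
  induction n with
  | zero => simp
  | succ n ih =>
    rw [Function.iterate_succ_apply', fc_out w hc (by
      rw [ih]; exact one_lt_pow₀ hy (by positivity)), ih, ← pow_mul, pow_succ]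

/-- the outer case -/
theorem out_res (h2 : w.valuation E 2 = 1) {c : E} (hc : w.valuation E c ≤ 1)
    {x y : E} (hy : 1 < w.valuation E y) (N : ℕ)
    (h : (fc 2 c)^[N] x + (fc 2 c)^[N] y = 0) :
    2 ^ (N + 1) ∣ Ideal.absNorm w.asIdeal - 1 := by
  classical
  have hxy : (fc 2 c)^[N] x = -(fc 2 c)^[N] y := eq_neg_of_add_eq_zero_left h
  have hv : w.valuation E ((fc 2 c)^[N] x) = w.valuation E ((fc 2 c)^[N] y) := by
    rw [hxy, Valuation.map_neg]
  have hyN : 1 < w.valuation E ((fc 2 c)^[N] y) := by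
    rw [iter_out w hc hy]; exact one_lt_pow₀ hy (by positivity)
  have hx : 1 < w.valuation E x := by
    by_contra hcon
    push Not at hcon
    have h1 := iter_int (w.valuation E) (q := 2) hc hcon N
    rw [hv] at h1
    exact absurd hyN (not_lt.mpr h1)
  have hxy1 : w.valuation E x = w.valuation E y := by
    rw [iter_out w hc hx, iter_out w hc hy] at hv
    exact (pow_left_inj₀ zero_le zero_le (by positivity)).mp hv
  have hvi : ∀ n, w.valuation E ((fc 2 c)^[n] x) = w.valuation E ((fc 2 c)^[n] y) := by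
    intro n; rw [iter_out w hc hx, iter_out w hc hy, hxy1]
  have hy1 : ∀ n, 1 < w.valuation E ((fc 2 c)^[n] y) := by
    intro n; rw [iter_out w hc hy]; exact one_lt_pow₀ hy (by positivity)
  have hy0 : ∀ n, (fc 2 c)^[n] y ≠ 0 := by
    intro n h0
    have := hy1 n
    rw [h0, map_zero] at this
    exact absurd this (not_lt.mpr zero_le)
  have hu1 : ∀ n, w.valuation E ((fc 2 c)^[n] x / (fc 2 c)^[n] y) = 1 := by
    intro n
    rw [map_div₀, hvi n]
    exact div_self ((Valuation.ne_zero_iff _).mpr (hy0 n))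
  obtain ⟨a, ha⟩ := exists_approx w (hu1 0).le
  have key : ∀ n, w.valuation E (((a ^ 2 ^ n : 𝓞 E) : E) -
      (fc 2 c)^[n] x / (fc 2 c)^[n] y) < 1 := by
    intro n
    induction n with
    | zero => simpa using ha
    | succ n ih =>
      set X := (fc 2 c)^[n] x with hX
      set Y := (fc 2 c)^[n] y with hY
      set t := a ^ 2 ^ n with ht
      have hY0 : Y ≠ 0 := hy0 n
      have hF0 : fc 2 c Y ≠ 0 := by
        have := hy0 (n + 1); rwa [Function.iterate_succ_apply'] at this
      have hF1 : 1 < w.valuation E (fc 2 c Y) := by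
        have := hy1 (n + 1); rwa [Function.iterate_succ_apply'] at this
      have hu := hu1 n
      rw [← hX, ← hY] at hu
      have e1 : ((a ^ 2 ^ (n + 1) : 𝓞 E) : E) = (t : E) ^ 2 := by
        rw [pow_succ 2 n, pow_mul, ← ht]
        exact map_pow (algebraMap (𝓞 E) E) t 2
      rw [Function.iterate_succ_apply', Function.iterate_succ_apply', ← hX, ← hY, e1]
      have e2 : (t : E) ^ 2 - fc 2 c X / fc 2 c Y =
          ((t : E) - X / Y) * ((t : E) + X / Y) - c * (1 - (X / Y) ^ 2) / fc 2 c Y := by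
        have hXY : X = X / Y * Y := by field_simp
        rw [eq_comm, sub_eq_iff_eq_add]
        field_simp
        unfold fc
        ring
      rw [e2]
      have ht1 : w.valuation E (t : E) ≤ 1 := w.valuation_le_one t
      refine Valuation.map_sub_lt _ ?_ ?_
      · rw [map_mul]
        calc w.valuation E ((t : E) - X / Y) * w.valuation E ((t : E) + X / Y)
            ≤ w.valuation E ((t : E) - X / Y) * 1 := by
              gcongr
              exact Valuation.map_add_le _ ht1 hu.le
          _ < 1 := by rw [mul_one]; exact ih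
      · have h5 : w.valuation E (c * (1 - (X / Y) ^ 2)) ≤ 1 := by
          rw [map_mul]
          refine mul_le_one₀ hc zero_le ?_
          refine Valuation.map_sub_le _ (by rw [map_one]) ?_
          rw [map_pow, hu, one_pow]
        rw [map_div₀, div_lt_one₀ (zero_lt_one.trans hF1)]
        exact h5.trans_lt hF1
  have hkN := key N
  have eN : (fc 2 c)^[N] x / (fc 2 c)^[N] y = -1 := by
    rw [hxy, neg_div, div_self (hy0 N)]
  rw [eN] at hkN
  -- the residue field
  have hfin : Finite (𝓞 E ⧸ w.asIdeal) := Ideal.finiteQuotientOfFreeOfNeBot _ w.ne_bot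
  have hmax : w.asIdeal.IsMaximal := w.isMaximal
  let _ : Field (𝓞 E ⧸ w.asIdeal) := Ideal.Quotient.field _
  let _ : Fintype (𝓞 E ⧸ w.asIdeal) := Fintype.ofFinite _
  have hcard : Ideal.absNorm w.asIdeal = Fintype.card (𝓞 E ⧸ w.asIdeal) := by
    rw [Ideal.absNorm_apply, Submodule.cardQuot_apply, Nat.card_eq_fintype_card]
  have h22 : (2 : 𝓞 E ⧸ w.asIdeal) ≠ 0 := by
    intro h7
    have h8 : (2 : 𝓞 E) ∈ w.asIdeal := by
      rw [← Ideal.Quotient.eq_zero_iff_mem, map_ofNat (Ideal.Quotient.mk w.asIdeal) 2]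
      exact h7
    rw [← w.valuation_lt_one_iff_mem (K := E)] at h8
    have h9 : algebraMap (𝓞 E) E 2 = 2 := map_ofNat _ 2
    change w.valuation E (algebraMap (𝓞 E) E 2) < 1 at h8
    rw [h9, h2] at h8
    exact lt_irrefl _ h8
  have hres : (Ideal.Quotient.mk w.asIdeal a) ^ 2 ^ N = -1 := by
    have h8 : a ^ 2 ^ N + 1 ∈ w.asIdeal := by
      rw [← w.valuation_lt_one_iff_mem (K := E)]
      change w.valuation E (algebraMap (𝓞 E) E (a ^ 2 ^ N + 1)) < 1
      rw [map_add, map_one]
      rw [sub_neg_eq_add] at hkN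
      exact hkN
    have h9 := Ideal.Quotient.eq_zero_iff_mem.mpr h8
    rw [map_add, map_pow, map_one] at h9
    exact eq_neg_of_add_eq_zero_left h9
  set A := Ideal.Quotient.mk w.asIdeal a with hA
  have hp2 : Fact (Nat.Prime 2) := ⟨Nat.prime_two⟩
  have h6 : orderOf A = 2 ^ (N + 1) := by
    refine orderOf_eq_prime_pow ?_ ?_
    · rw [hres]
      intro h7
      apply h22
      linear_combination -h7
    · rw [pow_succ 2 N, pow_mul, hres]; norm_num
  have hA0 : A ≠ 0 := by
    intro h7
    rw [h7, zero_pow (by positivity)] at hres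
    exact one_ne_zero (neg_eq_zero.mp hres.symm)
  rw [hcard, ← h6]
  exact orderOf_dvd_of_pow_eq_one (FiniteField.pow_card_sub_one_eq_one A hA0)

theorem absNorm_eq {r : ℕ} (hr : r.Prime) (hw : w.valuation E (r : E) < 1) :
    ∃ f : ℕ, 0 < f ∧ f ≤ Module.finrank ℚ E ∧ Ideal.absNorm w.asIdeal = r ^ f := by
  have h1 : (r : 𝓞 E) ∈ w.asIdeal := by
    rw [← w.valuation_lt_one_iff_mem (K := E)]
    change w.valuation E (algebraMap (𝓞 E) E (r : 𝓞 E)) < 1
    rw [map_natCast]; exact hw
  have h2 : Ideal.absNorm w.asIdeal ∣ r ^ Module.finrank ℚ E := by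
    have h3 := Ideal.absNorm_dvd_absNorm_of_le
      ((Ideal.span_singleton_le_iff_mem w.asIdeal).mpr h1)
    rw [Ideal.absNorm_span_singleton] at h3
    have h4 : Algebra.norm ℤ (r : 𝓞 E) = (r : ℤ) ^ Module.finrank ℚ E := by
      have h5 := Algebra.norm_algebraMap (R := ℤ) (S := 𝓞 E) (r : ℤ)
      rw [RingOfIntegers.rank] at h5
      simpa using h5
    rw [h4, Int.natAbs_pow, Int.natAbs_natCast] at h3
    exact h3
  obtain ⟨f, hf, hf'⟩ := (Nat.dvd_prime_pow hr).mp h2
  refine ⟨f, ?_, hf, hf'⟩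
  rcases Nat.eq_zero_or_pos f with h0 | h0
  · exfalso
    rw [h0, pow_zero, Ideal.absNorm_eq_one_iff] at hf'
    exact w.isPrime.ne_top hf'
  · exact h0

end

section
variable {K : Type*} [Field K] [NumberField K]

theorem exists_resChar (v : HeightOneSpectrum (𝓞 K)) :
    ∃ r : ℕ, r.Prime ∧ v.valuation K (r : K) < 1 := by
  have hfin : Finite (𝓞 K ⧸ v.asIdeal) := Ideal.finiteQuotientOfFreeOfNeBot _ v.ne_bot
  have hmax : v.asIdeal.IsMaximal := v.isMaximal
  let _ : Field (𝓞 K ⧸ v.asIdeal) := Ideal.Quotient.field _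
  obtain ⟨r, hr⟩ := CharP.exists (𝓞 K ⧸ v.asIdeal)
  have hr1 : r.Prime := (CharP.char_is_prime_or_zero (𝓞 K ⧸ v.asIdeal) r).resolve_right (by
    rintro rfl
    have : CharZero (𝓞 K ⧸ v.asIdeal) := CharP.charP_to_charZero _
    exact not_finite (𝓞 K ⧸ v.asIdeal))
  refine ⟨r, hr1, ?_⟩
  have h1 : (r : 𝓞 K) ∈ v.asIdeal := by
    rw [← Ideal.Quotient.eq_zero_iff_mem, map_natCast]
    exact CharP.cast_eq_zero _ _
  rw [← v.valuation_lt_one_iff_mem (K := K)] at h1
  change v.valuation K (algebraMap (𝓞 K) K (r : 𝓞 K)) < 1 at h1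
  rwa [map_natCast] at h1

/-- **Collisions have large degree** (Chebyshev reduction). -/
theorem collision_cheb (c : K) (v : HeightOneSpectrum (𝓞 K)) (h2 : v.valuation K 2 = 1)
    (hc : v.valuation K (c + 2) < 1) :
    ∃ C0 : ℕ, 0 < C0 ∧ ∀ (E : Type*) [Field E] [NumberField E] [Algebra K E] (x y : E) (N : ℕ),
      (fc 2 (algebraMap K E c))^[N + 1] x = (fc 2 (algebraMap K E c))^[N + 1] y →
      (fc 2 (algebraMap K E c))^[N] x ≠ (fc 2 (algebraMap K E c))^[N] y →
        2 ^ N ≤ C0 * Module.finrank K E := by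
  obtain ⟨r, hr, hvr⟩ := exists_resChar v
  have hr2 : ¬ 2 ∣ r := by
    intro h
    have h3 := (Nat.prime_dvd_prime_iff_eq Nat.prime_two hr).mp h
    rw [← h3] at hvr
    have : v.valuation K ((2 : ℕ) : K) = v.valuation K 2 := by norm_num
    rw [this, h2] at hvr
    exact lt_irrefl _ hvr
  obtain ⟨C, hC, hCb⟩ := pow_dvd_bound Nat.prime_two hr.two_le hr2
  refine ⟨C * (2 * Module.finrank ℚ K), by
    have := Module.finrank_pos (R := ℚ) (M := K); positivity, ?_⟩
  intro E _ _ _ x y N heq hne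
  obtain ⟨w, e, he0, he, hw⟩ := Arb.exists_above v E
  set cE := algebraMap K E c with hcE
  have h2E : w.valuation E 2 = 1 := by
    have := hw 2
    rw [map_ofNat (algebraMap K E)] at this
    rw [← this, h2, one_pow]
  have hcE2 : w.valuation E (cE + 2) < 1 := by
    have := hw (c + 2)
    rw [map_add (algebraMap K E), map_ofNat (algebraMap K E)] at this
    rw [← this]; exact pow_lt_one₀ zero_le hc (by omega)
  have hrE : w.valuation E (r : E) < 1 := by
    have := hw (r : K)
    rw [map_natCast (algebraMap K E)] at this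
    rw [← this]; exact pow_lt_one₀ zero_le hvr (by omega)
  have hcle : w.valuation E cE ≤ 1 := by
    have e : cE = (cE + 2) - 2 := by ring
    rw [e]
    exact Valuation.map_sub_le _ hcE2.le h2E.le
  obtain ⟨f, hf0, hf, hfn⟩ := absNorm_eq w hr hrE
  have hsum : (fc 2 cE)^[N] x + (fc 2 cE)^[N] y = 0 := by
    have h5 : (fc 2 cE) ((fc 2 cE)^[N] x) = (fc 2 cE) ((fc 2 cE)^[N] y) := by
      rw [← Function.iterate_succ_apply' (fc 2 cE), ← Function.iterate_succ_apply' (fc 2 cE)]
      exact heq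
    have h6 : ((fc 2 cE)^[N] x - (fc 2 cE)^[N] y) * ((fc 2 cE)^[N] x + (fc 2 cE)^[N] y) = 0 := by
      unfold fc at h5 ⊢
      linear_combination h5
    exact (mul_eq_zero.mp h6).resolve_left (sub_ne_zero.mpr hne)
  have hdvd : 2 ^ (N + 1) ∣ (Ideal.absNorm w.asIdeal) ^ 2 - 1 := by
    have hout : 2 ^ (N + 1) ∣ Ideal.absNorm w.asIdeal - 1 →
        2 ^ (N + 1) ∣ (Ideal.absNorm w.asIdeal) ^ 2 - 1 := by
      intro h
      refine h.trans ?_
      have := Nat.sub_dvd_pow_sub_pow (Ideal.absNorm w.asIdeal) 1 2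
      rwa [one_pow] at this
    rcases lt_or_ge 1 (w.valuation E y) with hy | hy
    · exact hout (out_res w h2E hcle hy N hsum)
    · rcases lt_or_ge 1 (w.valuation E x) with hx | hx
      · exact hout (out_res w h2E hcle hx N (by rw [add_comm]; exact hsum))
      · exact cheb_res w h2E hcE2 hx hy N hsum
  rw [hfn, ← pow_mul] at hdvd
  have h7 := hCb (f * 2) (N + 1) (by omega) hdvd
  have h8 : Module.finrank ℚ K * Module.finrank K E = Module.finrank ℚ E :=
    Module.finrank_mul_finrank ℚ K E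
  calc 2 ^ N ≤ 2 ^ (N + 1) := Nat.pow_le_pow_right (by norm_num) (by omega)
    _ ≤ C * (f * 2) := h7
    _ ≤ C * (Module.finrank ℚ E * 2) := by gcongr
    _ = C * (2 * Module.finrank ℚ K) * Module.finrank K E := by rw [← h8]; ring

end

end Pool.Agent.UH2
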