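import Pool.Agent.UH2.Cheb

/-!
# Collisions of Dickson (Chebyshev) polynomials in a finite field
-/

set_option autoImplicit false

open Polynomial

namespace Pool.Agent.UH2

/-- the Chebyshev polynomial `T_n` with `T_n (z + 1 / z) = z ^ n + 1 / z ^ n` -/
noncomputable def TT (R : Type*) [CommRing R] (n : ℕ) : R[X] := dickson 1 (1 : R) n

theorem map_TT {R S : Type*} [CommRing R] [CommRing S] (g : R →+* S) (n : ℕ) :
    (TT R n).map g = TT S n := by
  unfold TT
  rw [map_dickson, map_one]

theorem TT_eval {R : Type*} [Field R] {z : R} (hz : z ≠ 0) (n : ℕ) :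
    (TT R n).eval (z + z⁻¹) = z ^ n + (z ^ n)⁻¹ := by
  unfold TT
  rw [dickson_one_one_eval_add_inv z z⁻¹ (mul_inv_cancel₀ hz), inv_pow]

theorem TT_zero (R : Type*) [CommRing R] : TT R 0 = 2 := by
  unfold TT; rw [dickson_zero]; norm_num

theorem TT_one (R : Type*) [CommRing R] : TT R 1 = X := by
  unfold TT; exact dickson_one _ _

theorem TT_add_two (R : Type*) [CommRing R] (n : ℕ) :
    TT R (n + 2) = X * TT R (n + 1) - TT R n := by
  unfold TT; rw [dickson_add_two, C_1, one_mul]

theorem TT_deriv {R : Type*} [Field R] {z : R} (hz : z ≠ 0) (n : ℕ) :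
    (TT R n).derivative.eval (z + z⁻¹) * (z - z⁻¹) = n * (z ^ n - (z ^ n)⁻¹) := by
  induction n using Nat.twoStepInduction with
  | zero => rw [TT_zero]; simp
  | one => rw [TT_one]; simp
  | more n ih1 ih2 =>
    rw [TT_add_two, derivative_sub, derivative_mul, derivative_X, one_mul, eval_sub, eval_add,
      eval_mul, eval_X, TT_eval hz]
    have e : ((z ^ (n + 1) + (z ^ (n + 1))⁻¹ +
        (z + z⁻¹) * (TT R (n + 1)).derivative.eval (z + z⁻¹) -
          (TT R n).derivative.eval (z + z⁻¹)) * (z - z⁻¹)) =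
        (z ^ (n + 1) + (z ^ (n + 1))⁻¹) * (z - z⁻¹) +
        (z + z⁻¹) * ((TT R (n + 1)).derivative.eval (z + z⁻¹) * (z - z⁻¹)) -
          (TT R n).derivative.eval (z + z⁻¹) * (z - z⁻¹) := by ring
    rw [e, ih1, ih2]
    have h1 : z ^ n ≠ 0 := pow_ne_zero _ hz
    push_cast
    rw [pow_add z n 1, pow_add z n 2, pow_one]
    field_simp
    ring

theorem TT_at_two (R : Type*) [CommRing R] (n : ℕ) :
    (TT R n).eval 2 = 2 ∧ (TT R n).derivative.eval 2 = (n : R) ^ 2 := by
  induction n using Nat.twoStepInduction with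
  | zero => rw [TT_zero]; simp
  | one => rw [TT_one]; simp
  | more n ih1 ih2 =>
    rw [TT_add_two, derivative_sub, derivative_mul, derivative_X, one_mul, eval_sub, eval_sub,
      eval_add, eval_mul, eval_mul, eval_X, ih1.1, ih2.1, ih1.2, ih2.2]
    constructor
    · ring
    · push_cast; ring

theorem TT_at_neg_two (R : Type*) [CommRing R] (n : ℕ) :
    (TT R n).eval (-2) = 2 * (-1) ^ n ∧
      (TT R n).derivative.eval (-2) = (-1) ^ (n + 1) * (n : R) ^ 2 := by
  induction n using Nat.twoStepInduction with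
  | zero => rw [TT_zero]; simp
  | one => rw [TT_one]; simp
  | more n ih1 ih2 =>
    rw [TT_add_two, derivative_sub, derivative_mul, derivative_X, one_mul, eval_sub, eval_sub,
      eval_add, eval_mul, eval_mul, eval_X, ih1.1, ih2.1, ih1.2, ih2.2]
    constructor
    · ring
    · push_cast; ring

theorem TT_iter {R : Type*} [Field R] {z : R} (hz : z ≠ 0) (q n : ℕ) :
    (fun t : R => (TT R q).eval t)^[n] (z + z⁻¹) = z ^ q ^ n + (z ^ q ^ n)⁻¹ := by
  induction n with
  | zero => simp
  | succ n ih =>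
    rw [Function.iterate_succ_apply', ih, TT_eval (pow_ne_zero _ hz), ← pow_mul, ← pow_succ]

theorem iter_map {R S : Type*} [CommRing R] [CommRing S] (g : R →+* S) (f : R[X]) (a : R)
    (n : ℕ) : g ((fun t : R => f.eval t)^[n] a) =
      (fun t : S => (f.map g).eval t)^[n] (g a) := by
  induction n generalizing a with
  | zero => rfl
  | succ n ih =>
    rw [Function.iterate_succ_apply, Function.iterate_succ_apply, ih]
    congr 1
    rw [eval_map, eval₂_at_apply]

variable {k : Type*} [Field k] [Fintype k]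

/-- **Collisions in the residue field.** -/
theorem TT_finite {p s : ℕ} (hp : p.Prime) (hpk : (p : k) ≠ 0) (α β : k) (N : ℕ)
    (h : ((fun t : k => (TT k (p ^ s)).eval t)^[N] α ≠ (fun t : k => (TT k (p ^ s)).eval t)^[N] β ∧
        (TT k (p ^ s)).eval ((fun t : k => (TT k (p ^ s)).eval t)^[N] α) =
        (TT k (p ^ s)).eval ((fun t : k => (TT k (p ^ s)).eval t)^[N] β)) ∨
      (TT k (p ^ s)).derivative.eval ((fun t : k => (TT k (p ^ s)).eval t)^[N] α) = 0) :
    p ^ (s * N + 1) ∣ (Fintype.card k) ^ 2 - 1 := by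
  obtain ⟨z, hz0, hz, hz1⟩ := exists_z α
  obtain ⟨u, hu0, hu, hu1⟩ := exists_z β
  set q := p ^ s with hq
  set g := algebraMap k (AlgebraicClosure k) with hg
  have hgi : Function.Injective g := g.injective
  have hpk' : (p : AlgebraicClosure k) ≠ 0 := by
    intro h3; apply hpk; apply hgi; rw [map_natCast, h3, map_zero]
  have hqk' : ((q : ℕ) : AlgebraicClosure k) ≠ 0 := by
    rw [hq]; push_cast; exact pow_ne_zero _ hpk'
  have hit : ∀ (a : k) (w : AlgebraicClosure k), w ≠ 0 → w + w⁻¹ = g a →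
      g ((fun t : k => (TT k q).eval t)^[N] a) = w ^ q ^ N + (w ^ q ^ N)⁻¹ := by
    intro a w hw e
    rw [iter_map, map_TT, ← e, TT_iter hw]
  have hA := hit α z hz0 hz
  have hB := hit β u hu0 hu
  set A := (fun t : k => (TT k q).eval t)^[N] α with hAd
  set B := (fun t : k => (TT k q).eval t)^[N] β with hBd
  set Z := z ^ q ^ N with hZ
  set U := u ^ q ^ N with hU
  have hZ0 : Z ≠ 0 := pow_ne_zero _ hz0
  have hU0 : U ≠ 0 := pow_ne_zero _ hu0
  have hgev : ∀ t : k, g ((TT k q).eval t) = (TT (AlgebraicClosure k) q).eval (g t) := by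
    intro t; rw [← map_TT g, eval_map, eval₂_at_apply]
  have hgder : ∀ t : k, g ((TT k q).derivative.eval t) =
      (TT (AlgebraicClosure k) q).derivative.eval (g t) := by
    intro t; rw [← map_TT g, derivative_map, eval_map, eval₂_at_apply]
  have key : ∃ ζ : AlgebraicClosure k, ζ ^ q ^ N ≠ 1 ∧ ζ ^ q ^ (N + 1) = 1 ∧
      ζ ^ ((Fintype.card k) ^ 2 - 1) = 1 := by
    rcases h with ⟨h1, h2⟩ | h1
    · have h3 := congrArg g h2
      rw [hgev, hgev, hA, hB, TT_eval hZ0, TT_eval hU0] at h3
      have h4 : (Z ^ q - U ^ q) * (Z ^ q * U ^ q - 1) = 0 := by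
        have hZq : Z ^ q ≠ 0 := pow_ne_zero _ hZ0
        have hUq : U ^ q ≠ 0 := pow_ne_zero _ hU0
        field_simp at h3
        linear_combination h3
      have h5 : Z ≠ U ∧ Z * U ≠ 1 := by
        constructor
        · intro h6
          apply h1; apply hgi
          rw [hA, hB, h6]
        · intro h6
          apply h1; apply hgi
          have h7 : U = Z⁻¹ := eq_inv_of_mul_eq_one_right h6
          rw [hA, hB, h7, inv_inv, add_comm]
      rcases mul_eq_zero.mp h4 with h6 | h6
      · refine ⟨z / u, ?_, ?_, ?_⟩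
        · rw [div_pow, ← hZ, ← hU]
          intro h7
          exact h5.1 ((div_eq_one_iff_eq hU0).mp h7)
        · rw [pow_succ q N, pow_mul, div_pow, ← hZ, ← hU, div_pow,
            div_eq_one_iff_eq (pow_ne_zero _ hU0)]
          exact sub_eq_zero.mp h6
        · rw [div_pow, hz1, hu1, div_one]
      · refine ⟨z * u, ?_, ?_, ?_⟩
        · rw [mul_pow, ← hZ, ← hU]
          exact h5.2
        · rw [pow_succ q N, pow_mul, mul_pow, ← hZ, ← hU, mul_pow]
          exact sub_eq_zero.mp h6
        · rw [mul_pow, hz1, hu1, one_mul]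
    · -- a critical point
      have h3 : (TT (AlgebraicClosure k) q).derivative.eval (Z + Z⁻¹) = 0 := by
        rw [← hA, ← hgder, h1, map_zero]
      have h4 := TT_deriv hZ0 q
      rw [h3, zero_mul] at h4
      have h5 : Z ^ q - (Z ^ q)⁻¹ = 0 := (mul_eq_zero.mp h4.symm).resolve_left hqk'
      have hZq : Z ^ q ≠ 0 := pow_ne_zero _ hZ0
      have h6 : (Z ^ 2) ^ q = 1 := by
        rw [← pow_mul, mul_comm, pow_mul, sq]
        field_simp at h5
        linear_combination h5
      have h7 : Z ^ 2 ≠ 1 := by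
        intro h8
        have h8' : (Z - 1) * (Z + 1) = 0 := by linear_combination h8
        rcases (mul_eq_zero.mp h8').imp (fun h => sub_eq_zero.mp h)
          (fun h => eq_neg_of_add_eq_zero_left h) with h9 | h9
        · rw [h9] at h3
          have h10 := (TT_at_two (AlgebraicClosure k) q).2
          norm_num at h3
          rw [h3] at h10
          exact pow_ne_zero 2 hqk' h10.symm
        · rw [h9] at h3
          have h10 := (TT_at_neg_two (AlgebraicClosure k) q).2
          norm_num at h3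
          rw [h3] at h10
          exact mul_ne_zero (pow_ne_zero _ (by norm_num)) (pow_ne_zero 2 hqk') h10.symm
      refine ⟨z ^ 2, ?_, ?_, ?_⟩
      · rw [← pow_mul, mul_comm, pow_mul, ← hZ]; exact h7
      · rw [← pow_mul, mul_comm, pow_succ q N, mul_assoc, pow_mul, ← hZ, mul_comm, pow_mul]
        exact h6
      · rw [← pow_mul, mul_comm, pow_mul, hz1, one_pow]
  obtain ⟨ζ, hζ1, hζ2, hζ3⟩ := key
  have h6 : orderOf ζ ∣ p ^ (s * (N + 1)) := by
    apply orderOf_dvd_of_pow_eq_one
    rw [pow_mul, ← hq]; exact hζ2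
  obtain ⟨m, hm, hm'⟩ := (Nat.dvd_prime_pow hp).mp h6
  have h7 : s * N + 1 ≤ m := by
    by_contra hcon
    push Not at hcon
    apply hζ1
    have h8 : orderOf ζ ∣ q ^ N := by
      rw [hm', hq, ← pow_mul]
      exact pow_dvd_pow _ (by omega)
    exact orderOf_dvd_iff_pow_eq_one.mp h8
  have h8 : orderOf ζ ∣ (Fintype.card k) ^ 2 - 1 := orderOf_dvd_of_pow_eq_one hζ3
  rw [hm'] at h8
  exact (pow_dvd_pow _ h7).trans h8

end Pool.Agent.UH2
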