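import Pool.Agent.UH2.Dick
import Pool.Agent.UHT.TColl

/-!
# Polynomials with integral coefficients: differences, collisions, the exterior of the disc
-/

set_option autoImplicit false

open Polynomial NumberField IsDedekindDomain
open scoped WithZero

namespace Pool.Agent.UH2

open Pool.Agent.UHT (Cl)

section val
variable {F : Type*} [Field F] (u : Valuation F ℤᵐ⁰)

/-- integral coefficients -/
def IntP (P : F[X]) : Prop := ∀ i, u (P.coeff i) ≤ 1

/-- coefficients of absolute value less than one -/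
def SmallP (P : F[X]) : Prop := ∀ i, u (P.coeff i) < 1

variable {u}

theorem SmallP.int {P : F[X]} (hP : SmallP u P) : IntP u P := fun i => (hP i).le

theorem eval_le {P : F[X]} (hP : IntP u P) {x : F} (hx : u x ≤ 1) : u (P.eval x) ≤ 1 := by
  rw [eval_eq_sum_range]
  refine Valuation.map_sum_le u fun i _ => ?_
  rw [map_mul, map_pow]
  exact mul_le_one₀ (hP i) zero_le (pow_le_one₀ zero_le hx)

theorem eval_lt {P : F[X]} (hP : SmallP u P) {x : F} (hx : u x ≤ 1) : u (P.eval x) < 1 := by
  rw [eval_eq_sum_range]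
  refine Valuation.map_sum_lt u one_ne_zero fun i _ => ?_
  rw [map_mul, map_pow]
  exact (mul_le_of_le_one_right zero_le (pow_le_one₀ zero_le hx)).trans_lt (hP i)

theorem iter_le {P : F[X]} (hP : IntP u P) {x : F} (hx : u x ≤ 1) (n : ℕ) :
    u ((fun z => P.eval z)^[n] x) ≤ 1 := by
  induction n with
  | zero => exact hx
  | succ n ih => rw [Function.iterate_succ_apply']; exact eval_le hP ih

theorem natCast_le (n : ℕ) : u (n : F) ≤ 1 := by
  induction n with
  | zero => rw [Nat.cast_zero, map_zero]; exact zero_le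
  | succ n ih =>
    rw [Nat.cast_succ]
    exact Valuation.map_add_le u ih (by rw [map_one])

theorem intCast_le (n : ℤ) : u (n : F) ≤ 1 := by
  obtain ⟨m, rfl | rfl⟩ := n.eq_nat_or_neg
  · rw [Int.cast_natCast]; exact natCast_le m
  · rw [Int.cast_neg, Valuation.map_neg, Int.cast_natCast]; exact natCast_le m

theorem IntP.derivative {P : F[X]} (hP : IntP u P) : IntP u P.derivative := by
  intro i
  rw [coeff_derivative, map_mul]
  refine mul_le_one₀ (hP _) zero_le ?_
  have := natCast_le (u := u) (i + 1)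
  push_cast at this
  exact this

theorem SmallP.derivative {P : F[X]} (hP : SmallP u P) : SmallP u P.derivative := by
  intro i
  rw [coeff_derivative, map_mul]
  have := natCast_le (u := u) (i + 1)
  push_cast at this
  exact (mul_le_of_le_one_right zero_le this).trans_lt (hP _)

theorem IntP.lift {P : F[X]} (hP : IntP u P) :
    ∃ Q : (u.integer)[X], Q.map u.integer.subtype = P := by
  have h := (Polynomial.lifts_iff_coeff_lifts (f := u.integer.subtype) P).mpr
    (fun n => ⟨⟨P.coeff n, hP n⟩, rfl⟩)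
  exact (Polynomial.mem_lifts P).mp h

theorem eval_lift {P : F[X]} {Q : (u.integer)[X]} (h : Q.map u.integer.subtype = P)
    (x : u.integer) : P.eval (x : F) = ((Q.eval x : u.integer) : F) := by
  rw [← h, eval_map]
  exact eval₂_at_apply (p := Q) u.integer.subtype x

theorem eval_sub_le {P : F[X]} (hP : IntP u P) {x y : F} (hx : u x ≤ 1) (hy : u y ≤ 1) :
    u (P.eval x - P.eval y) ≤ u (x - y) := by
  obtain ⟨Q, hQ⟩ := hP.lift
  have e1 := eval_lift hQ ⟨x, hx⟩
  have e2 := eval_lift hQ ⟨y, hy⟩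
  obtain ⟨z, hz⟩ := Polynomial.evalSubFactor Q ⟨x, hx⟩ ⟨y, hy⟩
  have e3 := congrArg (fun t : u.integer => (t : F)) hz
  push_cast at e3
  rw [← e1, ← e2] at e3
  change P.eval x - P.eval y = (z : F) * (x - y) at e3
  rw [e3, map_mul]
  exact mul_le_of_le_one_left zero_le z.2

theorem deriv_le {P : F[X]} (hP : IntP u P) {x y : F} (hx : u x ≤ 1) (hy : u y ≤ 1)
    (h : P.eval x = P.eval y) (hne : x ≠ y) : u (P.derivative.eval y) ≤ u (x - y) := by
  obtain ⟨Q, hQ⟩ := hP.lift
  have hQ' : Q.derivative.map u.integer.subtype = P.derivative := by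
    rw [← derivative_map, hQ]
  have e1 := eval_lift hQ ⟨x, hx⟩
  have e2 := eval_lift hQ ⟨y, hy⟩
  have e3 := eval_lift hQ' ⟨y, hy⟩
  obtain ⟨k, hk⟩ := Polynomial.binomExpansion Q ⟨y, hy⟩ (⟨x, hx⟩ - ⟨y, hy⟩)
  rw [add_sub_cancel] at hk
  have e4 := congrArg (fun t : u.integer => (t : F)) hk
  push_cast at e4
  rw [← e1, ← e2, ← e3] at e4
  change P.eval x = P.eval y + P.derivative.eval y * (x - y) + (k : F) * (x - y) ^ 2 at e4
  have e5 : (x - y) * (P.derivative.eval y + (k : F) * (x - y)) = 0 := by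
    linear_combination h - e4
  have e6 := (mul_eq_zero.mp e5).resolve_left (sub_ne_zero.mpr hne)
  have e7 : P.derivative.eval y = -((k : F) * (x - y)) := by linear_combination e6
  rw [e7, Valuation.map_neg, map_mul]
  exact mul_le_of_le_one_left zero_le k.2

/-! ### the exterior -/

/-- the region where the leading term dominates -/
def Out (u : Valuation F ℤᵐ⁰) (q : ℕ) (P : F[X]) (y : F) : Prop :=
  1 ≤ u y ∧ ∀ i < q, u (P.coeff i) * u y ^ i < u y ^ q

theorem Out.ne {q : ℕ} {P : F[X]} {y : F} (h : Out u q P y) : y ≠ 0 := by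
  rintro rfl
  have := h.1
  rw [map_zero] at this
  exact absurd zero_lt_one (not_lt.mpr this)

theorem Out.cl {q : ℕ} {P : F[X]} (hd : P.natDegree ≤ q) (ha : u (P.coeff q) = 1) {y : F}
    (h : Out u q P y) : Cl u (P.eval y) (P.coeff q * y ^ q) := by
  unfold Cl
  have e : P.eval y - P.coeff q * y ^ q = ∑ i ∈ Finset.range q, P.coeff i * y ^ i := by
    rw [eval_eq_sum_range' (Nat.lt_succ_of_le hd), Finset.sum_range_succ]
    ring
  have h0 : u (P.coeff q * y ^ q) = u y ^ q := by rw [map_mul, ha, one_mul, map_pow]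
  rw [e, h0]
  refine Valuation.map_sum_lt u (pow_ne_zero _ ?_) fun i hi => ?_
  · exact (Valuation.ne_zero_iff u).mpr h.ne
  · rw [map_mul, map_pow]
    exact h.2 i (Finset.mem_range.mp hi)

theorem Out.val {q : ℕ} {P : F[X]} (hd : P.natDegree ≤ q) (ha : u (P.coeff q) = 1) {y : F}
    (h : Out u q P y) : u (P.eval y) = u y ^ q := by
  rw [(h.cl hd ha).val, map_mul, ha, one_mul, map_pow]

theorem Out.step {q : ℕ} (hq : 1 ≤ q) {P : F[X]} (hd : P.natDegree ≤ q)
    (ha : u (P.coeff q) = 1) {y : F} (h : Out u q P y) : Out u q P (P.eval y) := by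
  have h1 := h.val hd ha
  unfold Out
  rw [h1]
  refine ⟨one_le_pow₀ h.1, fun i hi => ?_⟩
  obtain ⟨m, rfl⟩ : ∃ m, q = m + 1 := ⟨q - 1, by omega⟩
  have h2 : 0 < u y := zero_lt_one.trans_le h.1
  have h3 := h.2 i hi
  calc u (P.coeff i) * (u y ^ (m + 1)) ^ i
      = (u (P.coeff i) * u y ^ i) * (u y ^ i) ^ m := by
        rw [mul_assoc, ← pow_succ' (u y ^ i) m, ← pow_mul, ← pow_mul, mul_comm (m + 1) i]
    _ < u y ^ (m + 1) * (u y ^ i) ^ m := mul_lt_mul_of_pos_right h3 (pow_pos (pow_pos h2 i) m)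
    _ ≤ u y ^ (m + 1) * (u y ^ (m + 1)) ^ m :=
        mul_le_mul_of_nonneg_left (pow_le_pow_left₀ zero_le (pow_le_pow_right₀ h.1 hi.le) m)
          zero_le
    _ = (u y ^ (m + 1)) ^ (m + 1) := by rw [← pow_succ' (u y ^ (m + 1)) m]

theorem Out.iter {q : ℕ} (hq : 1 ≤ q) {P : F[X]} (hd : P.natDegree ≤ q)
    (ha : u (P.coeff q) = 1) {y : F} (h : Out u q P y) (n : ℕ) :
    Out u q P ((fun z => P.eval z)^[n] y) ∧
      u ((fun z => P.eval z)^[n] y) = u y ^ q ^ n := by
  induction n with
  | zero => exact ⟨h, by rw [pow_zero, pow_one]; rfl⟩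
  | succ n ih =>
    rw [Function.iterate_succ_apply']
    refine ⟨ih.1.step hq hd ha, ?_⟩
    rw [ih.1.val hd ha, ih.2, ← pow_mul, ← pow_succ]

theorem Cl.inv' {a b : F} (h : Cl u a b) : Cl u a⁻¹ b⁻¹ := by
  have hb := h.ne
  have ha : a ≠ 0 := h.symm.ne
  have h1 := h.val
  have h2 : 0 < u b := h.pos
  unfold Cl at h ⊢
  have e : a⁻¹ - b⁻¹ = (b - a) * (a⁻¹ * b⁻¹) := by
    field_simp
  have h3 : u b ≠ 0 := h2.ne'
  rw [e, map_mul, map_mul, map_inv₀, map_inv₀, h1, Valuation.map_sub_swap]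
  have hp : 0 < (u b)⁻¹ := by rw [inv_pos]; exact h2
  calc u (a - b) * ((u b)⁻¹ * (u b)⁻¹) < u b * ((u b)⁻¹ * (u b)⁻¹) :=
        mul_lt_mul_of_pos_right h (mul_pos hp hp)
    _ = (u b)⁻¹ := by rw [← mul_assoc, mul_inv_cancel₀ h3, one_mul]

theorem Cl.div' {a b a' b' : F} (h : Cl u a b) (h' : Cl u a' b') : Cl u (a / a') (b / b') := by
  rw [div_eq_mul_inv, div_eq_mul_inv]
  exact h.mul (Cl.inv' h')

/-- The ratio of two orbits in the exterior. -/
theorem Out.ratio {q : ℕ} (hq : 1 ≤ q) {P : F[X]} (hd : P.natDegree ≤ q)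
    (ha : u (P.coeff q) = 1) {x y : F} (hx : Out u q P x) (hy : Out u q P y) (n : ℕ) :
    Cl u ((fun z => P.eval z)^[n] x / (fun z => P.eval z)^[n] y) ((x / y) ^ q ^ n) := by
  have ha0 : P.coeff q ≠ 0 := by
    intro h; rw [h, map_zero] at ha; exact zero_ne_one ha
  induction n with
  | zero =>
    rw [pow_zero, pow_one]
    exact UHT.Cl.refl (div_ne_zero hx.ne hy.ne)
  | succ n ih =>
    rw [Function.iterate_succ_apply', Function.iterate_succ_apply']
    have h1 := (hx.iter hq hd ha n).1.cl hd ha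
    have h2 := (hy.iter hq hd ha n).1.cl hd ha
    have h3 := Cl.div' h1 h2
    rw [mul_div_mul_left _ _ ha0, ← div_pow] at h3
    have h4 := ih.pow q
    rw [← pow_mul, ← pow_succ] at h4
    exact h3.trans h4

/-- Collisions in the exterior give roots of unity modulo the place. -/
theorem Out.collision {q : ℕ} (hq : 1 ≤ q) (huq : u (q : F) = 1) {P : F[X]}
    (hd : P.natDegree ≤ q) (ha : u (P.coeff q) = 1) {x y : F} (hx : Out u q P x)
    (hy : Out u q P y) {N : ℕ}
    (h1 : (fun z => P.eval z)^[N + 1] x = (fun z => P.eval z)^[N + 1] y)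
    (h2 : (fun z => P.eval z)^[N] x ≠ (fun z => P.eval z)^[N] y) :
    ∃ ρ : F, u ρ = 1 ∧ u (ρ ^ q ^ N - 1) = 1 ∧ u (ρ ^ q ^ (N + 1) - 1) < 1 := by
  have hqN : ∀ n : ℕ, q ^ n ≠ 0 := fun n => pow_ne_zero n (by omega)
  have hxi := fun n => hx.iter hq hd ha n
  have hyi := fun n => hy.iter hq hd ha n
  have huxy : u x = u y := by
    have h3 : u x ^ q ^ (N + 1) = u y ^ q ^ (N + 1) := by
      rw [← (hxi (N + 1)).2, ← (hyi (N + 1)).2, h1]
    exact (pow_left_inj₀ zero_le zero_le (hqN _)).mp h3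
  have hρ1 : u (x / y) = 1 := by
    rw [map_div₀, huxy, div_self ((Valuation.ne_zero_iff u).mpr hy.ne)]
  have hrat := fun n => hx.ratio hq hd ha hy n
  refine ⟨x / y, hρ1, ?_, ?_⟩
  · -- otherwise `X / Y` is close to `1`
    set A := (fun z => P.eval z)^[N] x with hA
    set B := (fun z => P.eval z)^[N] y with hB
    have hBout : Out u q P B := (hyi N).1
    have hB0 : B ≠ 0 := hBout.ne
    by_contra hcon
    have hle : u ((x / y) ^ q ^ N - 1) ≤ 1 := by
      refine Valuation.map_sub_le u ?_ (by rw [map_one])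
      rw [map_pow, hρ1, one_pow]
    have hlt : u ((x / y) ^ q ^ N - 1) < 1 := lt_of_le_of_ne hle hcon
    have hAB : u (A / B - 1) < 1 := by
      have e : A / B - 1 = (A / B - (x / y) ^ q ^ N) + ((x / y) ^ q ^ N - 1) := by ring
      have h3 := hrat N
      unfold Cl at h3
      rw [map_pow, hρ1, one_pow] at h3
      rw [e]
      exact Valuation.map_add_lt u h3 hlt
    have hABne : A / B ≠ 1 := fun h => h2 ((div_eq_one_iff_eq hB0).mp h)
    have hAB1 : u (A / B) ≤ 1 := by
      have e : A / B = (A / B - 1) + 1 := by ring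
      rw [e]
      exact Valuation.map_add_le u hAB.le (by rw [map_one])
    -- the scaled polynomial
    set G : F[X] := C (B ^ q)⁻¹ * P.comp (C B * X) with hG
    have hGc : ∀ i, G.coeff i = (B ^ q)⁻¹ * (P.coeff i * B ^ i) := by
      intro i
      rw [hG, coeff_C_mul, comp_C_mul_X_coeff]
    have hBq : (B ^ q) ≠ 0 := pow_ne_zero _ hB0
    have huBq : u (B ^ q) ≠ 0 := (Valuation.ne_zero_iff u).mpr hBq
    set R : F[X] := G - C (P.coeff q) * X ^ q with hR
    have hRs : SmallP u R := by
      intro i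
      rw [hR, coeff_sub, coeff_C_mul_X_pow, hGc]
      rcases lt_trichotomy i q with hi | hi | hi
      · rw [if_neg (by omega), sub_zero, map_mul, map_inv₀, inv_mul_lt_iff₀ (zero_lt_iff.mpr huBq),
          mul_one, map_mul, map_pow, map_pow]
        exact hBout.2 i hi
      · subst hi
        rw [if_pos rfl]
        have e : (B ^ i)⁻¹ * (P.coeff i * B ^ i) - P.coeff i = 0 := by
          field_simp
          ring
        rw [e, map_zero]
        exact zero_lt_one
      · rw [if_neg (by omega), coeff_eq_zero_of_natDegree_lt (by omega)]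
        rw [zero_mul, mul_zero, sub_zero, map_zero]
        exact zero_lt_one
    have hGe : G = R + C (P.coeff q) * X ^ q := by rw [hR]; ring
    have hGi : IntP u G := by
      intro i
      rw [hGe, coeff_add, coeff_C_mul_X_pow]
      refine Valuation.map_add_le u (hRs i).le ?_
      split_ifs
      · exact ha.le
      · rw [map_zero]; exact zero_le
    have hGev : ∀ t : F, G.eval t = (B ^ q)⁻¹ * P.eval (B * t) := by
      intro t
      rw [hG, eval_mul, eval_C, eval_comp, eval_mul, eval_C, eval_X]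
    have hcol : G.eval (A / B) = G.eval 1 := by
      rw [hGev, hGev, mul_div_cancel₀ _ hB0, mul_one]
      rw [Function.iterate_succ_apply', Function.iterate_succ_apply', ← hA, ← hB] at h1
      change P.eval A = P.eval B at h1
      rw [h1]
    have h5 := deriv_le hGi hAB1 (by rw [map_one]) hcol hABne
    have h6 : u (G.derivative.eval 1) < 1 := h5.trans_lt hAB
    have h7 : G.derivative.eval 1 = R.derivative.eval 1 + P.coeff q * q := by
      rw [hGe, derivative_add, eval_add, derivative_C_mul_X_pow, eval_mul, eval_C, eval_pow,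
        eval_X, one_pow, mul_one]
    have h8 : u (R.derivative.eval 1) < 1 := eval_lt hRs.derivative (by rw [map_one])
    have h9 : u (P.coeff q * q) = 1 := by rw [map_mul, ha, huq, one_mul]
    rw [h7, Valuation.map_add_eq_of_lt_right u (by rw [h9]; exact h8), h9] at h6
    exact lt_irrefl _ h6
  · have h3 := hrat (N + 1)
    rw [h1, div_self (hyi (N + 1)).1.ne] at h3
    have h4 := h3.symm
    unfold Cl at h4
    rw [map_one] at h4
    exact h4

theorem out_of_int {q : ℕ} {P : F[X]} (hP : IntP u P) {y : F} (hy : 1 < u y) : Out u q P y := by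
  refine ⟨hy.le, fun i hi => ?_⟩
  calc u (P.coeff i) * u y ^ i ≤ u y ^ i := mul_le_of_le_one_left zero_le (hP i)
    _ < u y ^ q := pow_lt_pow_right₀ hy hi

theorem out_of_small {q : ℕ} {P : F[X]} (hP : ∀ i < q, u (P.coeff i) < 1) {y : F}
    (hy : 1 ≤ u y) : Out u q P y := by
  refine ⟨hy, fun i hi => ?_⟩
  have h0 : 0 < u y := zero_lt_one.trans_le hy
  calc u (P.coeff i) * u y ^ i < 1 * u y ^ i := mul_lt_mul_of_pos_right (hP i hi) (pow_pos h0 i)
    _ = u y ^ i := one_mul _
    _ ≤ u y ^ q := pow_le_pow_right₀ hy hi.le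

end val

end Pool.Agent.UH2
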