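import Mathlib

/-!
# Orders of `p`-power roots of unity in finite fields
-/

set_option autoImplicit false

namespace Pool.Agent.UH2

theorem odd_bound {p r : ℕ} (hp : p.Prime) (hp2 : p ≠ 2) (hr : 2 ≤ r) (hpr : ¬ p ∣ r) :
    ∃ C : ℕ, 0 < C ∧ ∀ f m : ℕ, 0 < f → p ^ m ∣ r ^ f - 1 → p ^ m ≤ C * f := by
  have : Fact p.Prime := ⟨hp⟩
  have hodd : Odd p := hp.odd_of_ne_two hp2
  set X := r ^ (p - 1) with hX
  have hp1 : 0 < p - 1 := by have := hp.two_le; omega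
  have hX2 : 1 < X := Nat.one_lt_pow (by omega) (by omega)
  have hpX : p ∣ X - 1 := by
    have hcop : Nat.Coprime r p := ((Nat.Prime.coprime_iff_not_dvd hp).mpr hpr).symm
    have h1 : r ^ (p - 1) ≡ 1 [MOD p] := by
      have := Nat.ModEq.pow_totient hcop
      rwa [Nat.totient_prime hp] at this
    exact (Nat.modEq_iff_dvd' hX2.le).mp h1.symm
  have hpX' : ¬ p ∣ X := by
    intro h
    exact hpr (hp.dvd_of_dvd_pow h)
  refine ⟨X - 1, by omega, ?_⟩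
  intro f m hf hd
  have h1 : r ^ f - 1 ∣ X ^ f - 1 ^ f := by
    have := Nat.sub_dvd_pow_sub_pow (r ^ f) 1 (p - 1)
    rw [one_pow] at this ⊢
    rwa [hX, ← pow_mul, mul_comm (p - 1) f, pow_mul]
  have h2 : X ^ f - 1 ^ f ≠ 0 := by
    rw [one_pow]
    have := Nat.one_lt_pow hf.ne' hX2
    omega
  have h3 : m ≤ padicValNat p (X ^ f - 1 ^ f) :=
    (padicValNat_dvd_iff_le h2).mp (hd.trans h1)
  rw [padicValNat.pow_sub_pow hodd hX2 hpX hpX' hf.ne'] at h3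
  calc p ^ m ≤ p ^ (padicValNat p (X - 1) + padicValNat p f) :=
        Nat.pow_le_pow_right hp.pos h3
    _ = p ^ padicValNat p (X - 1) * p ^ padicValNat p f := pow_add _ _ _
    _ ≤ (X - 1) * f := Nat.mul_le_mul
        (Nat.le_of_dvd (by omega) pow_padicValNat_dvd) (Nat.le_of_dvd hf pow_padicValNat_dvd)

theorem two_bound {r : ℕ} (hr : 2 ≤ r) (hpr : ¬ 2 ∣ r) :
    ∃ C : ℕ, 0 < C ∧ ∀ f m : ℕ, 0 < f → 2 ^ m ∣ r ^ f - 1 → 2 ^ m ≤ C * f := by
  have : Fact (Nat.Prime 2) := ⟨Nat.prime_two⟩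
  refine ⟨(r + 1) * (r - 1), Nat.mul_pos (by omega) (by omega), ?_⟩
  intro f m hf hd
  have h1 : r ^ f - 1 ∣ r ^ (2 * f) - 1 ^ (2 * f) := by
    have := Nat.sub_dvd_pow_sub_pow (r ^ f) 1 2
    rw [one_pow] at this ⊢
    rwa [← pow_mul, mul_comm f 2] at this
  have h2 : r ^ (2 * f) - 1 ^ (2 * f) ≠ 0 := by
    rw [one_pow]
    have : 1 < r ^ (2 * f) := Nat.one_lt_pow (by omega) (by omega)
    omega
  have h3 : m ≤ padicValNat 2 (r ^ (2 * f) - 1 ^ (2 * f)) :=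
    (padicValNat_dvd_iff_le h2).mp (hd.trans h1)
  have h4 := padicValNat.pow_two_sub_pow (x := r) (y := 1) (n := 2 * f) (by omega)
    (by omega) hpr (by omega) (even_two_mul f)
  have h5 : padicValNat 2 (2 * f) = 1 + padicValNat 2 f := by
    rw [padicValNat.mul (by norm_num) (by omega)]
    simp
  have h6 : m ≤ padicValNat 2 (r + 1) + padicValNat 2 (r - 1) + padicValNat 2 f := by omega
  calc 2 ^ m ≤ 2 ^ (padicValNat 2 (r + 1) + padicValNat 2 (r - 1) + padicValNat 2 f) :=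
        Nat.pow_le_pow_right (by norm_num) h6
    _ = 2 ^ padicValNat 2 (r + 1) * 2 ^ padicValNat 2 (r - 1) * 2 ^ padicValNat 2 f := by
        rw [pow_add, pow_add]
    _ ≤ (r + 1) * (r - 1) * f := Nat.mul_le_mul (Nat.mul_le_mul
        (Nat.le_of_dvd (by omega) pow_padicValNat_dvd)
        (Nat.le_of_dvd (by omega) pow_padicValNat_dvd)) (Nat.le_of_dvd hf pow_padicValNat_dvd)

/-- If `p ^ m` divides `r ^ f - 1` then `p ^ m` is at most a multiple of `f`. -/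
theorem pow_dvd_bound {p r : ℕ} (hp : p.Prime) (hr : 2 ≤ r) (hpr : ¬ p ∣ r) :
    ∃ C : ℕ, 0 < C ∧ ∀ f m : ℕ, 0 < f → p ^ m ∣ r ^ f - 1 → p ^ m ≤ C * f := by
  rcases eq_or_ne p 2 with rfl | h
  · exact two_bound hr hpr
  · exact odd_bound hp h hr hpr

end Pool.Agent.UH2
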